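import Mathlib

set_option autoImplicit false

namespace Pool.Agent.Hhelper5.OrdR

/-- prefix of length `i` of the `L`-digit base-`q` string `x` -/
def pre (q L i x : ℕ) : ℕ := x / q ^ (L - i)

/-- `i`-th digit (most significant first) -/
def dig (q L i x : ℕ) : ℕ := pre q L (i + 1) x % q

lemma pre_mono {q L i x y : ℕ} (h : x ≤ y) : pre q L i x ≤ pre q L i y :=
  Nat.div_le_div_right h

lemma pre_pre {q L i j x : ℕ} (hij : j ≤ i) (hi : i ≤ L) :
    pre q L j x = pre q L i x / q ^ (i - j) := by
  unfold pre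
  rw [Nat.div_div_eq_div_mul, ← pow_add]
  congr 2
  omega

lemma pre_succ {q L i x : ℕ} (hi : i < L) : pre q L i x = pre q L (i + 1) x / q := by
  rw [pre_pre (i := i + 1) (j := i) (by omega) (by omega)]
  simp

lemma pre_L {q L x : ℕ} : pre q L L x = x := by simp [pre]

lemma pre_zero {q L x : ℕ} (hx : x < q ^ L) : pre q L 0 x = 0 := by
  unfold pre
  exact Nat.div_eq_of_lt (by simpa using hx)

lemma pre_le {q L i x : ℕ} : pre q L i x ≤ x := Nat.div_le_self _ _

lemma pre_congr {q L i j x y : ℕ} (hij : j ≤ i) (hi : i ≤ L)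
    (h : pre q L i x = pre q L i y) : pre q L j x = pre q L j y := by
  rw [pre_pre hij hi, pre_pre hij hi, h]

lemma pre_eq_dig {q L i x : ℕ} (hi : i < L) :
    pre q L (i + 1) x = q * pre q L i x + dig q L i x := by
  rw [pre_succ hi, dig]
  exact (Nat.div_add_mod _ _).symm

lemma dig_lt {q L i x : ℕ} (hq : 0 < q) : dig q L i x < q := Nat.mod_lt _ hq

/-- the box `(i,j,P,Q)` has no coarser mark in its row or column -/
def En (mk : ℕ → ℕ → ℕ → ℕ → Prop) (q i j P Q : ℕ) : Prop :=
  (∀ j' < j, ¬ mk i j' P (Q / q ^ (j - j'))) ∧ (∀ i' < i, ¬ mk i' j (P / q ^ (i - i')) Q)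

/-- the level pair `(i,j)` is active at `(x,y)` -/
def act (mk : ℕ → ℕ → ℕ → ℕ → Prop) (q L i j x y : ℕ) : Prop :=
  mk i j (pre q L i x) (pre q L j y) ∧ En mk q i j (pre q L i x) (pre q L j y)

open Classical in
/-- one summand of the colouring -/
noncomputable def trm (mk : ℕ → ℕ → ℕ → ℕ → Prop) (bt : ℕ → ℕ → ℕ → ℕ → ℕ → ℕ → Bool)
    (q L i j x y : ℕ) : ZMod 2 :=
  if act mk q L i j x y then
    (if bt i j (pre q L i x) (pre q L j y) (dig q L i x) (dig q L j y) then 1 else 0) else 0

/-- the colouring -/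
noncomputable def FF (mk : ℕ → ℕ → ℕ → ℕ → Prop) (bt : ℕ → ℕ → ℕ → ℕ → ℕ → ℕ → Bool)
    (q L x y : ℕ) : ZMod 2 :=
  ∑ i ∈ Finset.range L, ∑ j ∈ Finset.range L, trm mk bt q L i j x y

lemma trm_congr_left {mk : ℕ → ℕ → ℕ → ℕ → Prop} {bt : ℕ → ℕ → ℕ → ℕ → ℕ → ℕ → Bool}
    {q L i j x x' y : ℕ} (hi : i < L)
    (h : pre q L (i + 1) x = pre q L (i + 1) x') :
    trm mk bt q L i j x y = trm mk bt q L i j x' y := by
  have h0 : pre q L i x = pre q L i x' := pre_congr (Nat.le_succ i) hi h
  unfold trm act dig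
  rw [h0, h]

lemma trm_congr_right {mk : ℕ → ℕ → ℕ → ℕ → Prop} {bt : ℕ → ℕ → ℕ → ℕ → ℕ → ℕ → Bool}
    {q L i j x y y' : ℕ} (hj : j < L)
    (h : pre q L (j + 1) y = pre q L (j + 1) y') :
    trm mk bt q L i j x y = trm mk bt q L i j x y' := by
  have h0 : pre q L j y = pre q L j y' := pre_congr (Nat.le_succ j) hj h
  unfold trm act dig
  rw [h0, h]

lemma trm_ne_zero {mk : ℕ → ℕ → ℕ → ℕ → Prop} {bt : ℕ → ℕ → ℕ → ℕ → ℕ → ℕ → Bool}
    {q L i j x y : ℕ} (h : trm mk bt q L i j x y ≠ 0) : act mk q L i j x y := by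
  unfold trm at h
  by_contra hc
  simp [hc] at h

lemma zmod2_add_self (a : ZMod 2) : a + a = 0 := by
  revert a; decide

/-- the 2×2 minor lemma -/
theorem minor {mk : ℕ → ℕ → ℕ → ℕ → Prop} {bt : ℕ → ℕ → ℕ → ℕ → ℕ → ℕ → Bool}
    {q L i j : ℕ} (hi : i < L) (hj : j < L) {x x' y y' : ℕ}
    (hx : pre q L i x = pre q L i x') (hy : pre q L j y = pre q L j y')
    (ha : act mk q L i j x y)
    (hbit : trm mk bt q L i j x y + trm mk bt q L i j x y' + trm mk bt q L i j x' y
      + trm mk bt q L i j x' y' = 1)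
    (hF : FF mk bt q L x y + FF mk bt q L x y' + FF mk bt q L x' y + FF mk bt q L x' y' = 0) :
    ∃ a b i' j', (a = x ∨ a = x') ∧ (b = y ∨ b = y') ∧ i < i' ∧ i' < L ∧ j < j' ∧ j' < L ∧
      mk i' j' (pre q L i' a) (pre q L j' b) := by
  classical
  by_contra hno
  push Not at hno
  -- every other term has zero minor sum
  let g : ℕ → ℕ → ZMod 2 := fun i' j' => trm mk bt q L i' j' x y + trm mk bt q L i' j' x y'
    + trm mk bt q L i' j' x' y + trm mk bt q L i' j' x' y'
  have hsum : FF mk bt q L x y + FF mk bt q L x y' + FF mk bt q L x' y + FF mk bt q L x' y' =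
      ∑ i' ∈ Finset.range L, ∑ j' ∈ Finset.range L, g i' j' := by
    simp only [FF, g, Finset.sum_add_distrib]
  have hz : ∀ i' ∈ Finset.range L, ∀ j' ∈ Finset.range L, (i', j') ≠ (i, j) → g i' j' = 0 := by
    intro i' hi' j' hj' hne
    rw [Finset.mem_range] at hi' hj'
    have key : ∀ a b, (a = x ∨ a = x') → (b = y ∨ b = y') → act mk q L i' j' a b →
        ¬ (i ≤ i' ∧ j ≤ j') := by
      intro a b hA hB hact ⟨h1, h2⟩
      have hpa : pre q L i a = pre q L i x := by
        rcases hA with rfl | rfl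
        · rfl
        · exact hx.symm
      have hpb : pre q L j b = pre q L j y := by
        rcases hB with rfl | rfl
        · rfl
        · exact hy.symm
      rcases Nat.lt_or_ge i i' with h3 | h3
      · rcases Nat.lt_or_ge j j' with h4 | h4
        · exact hno a b i' j' hA hB h3 hi' h4 hj' hact.1
        · have h5 : j' = j := le_antisymm h4 h2
          subst h5
          -- mark at (i,j) coarser in the column
          have := hact.2.2 i h3
          rw [← pre_pre (q := q) (L := L) (by omega) (by omega), hpa, hpb] at this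
          exact this ha.1
      · have h5 : i' = i := le_antisymm h3 h1
        subst h5
        rcases Nat.lt_or_ge j j' with h4 | h4
        · have := hact.2.1 j h4
          rw [← pre_pre (q := q) (L := L) (by omega) (by omega), hpa, hpb] at this
          exact this ha.1
        · exact hne (by rw [le_antisymm h4 h2])
    rcases Nat.lt_or_ge i' i with h1 | h1
    · have e1 : ∀ b, trm mk bt q L i' j' x b = trm mk bt q L i' j' x' b := fun b =>
        trm_congr_left hi' (pre_congr h1 (by omega) hx)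
      simp only [g]
      rw [e1 y, e1 y']
      have := zmod2_add_self (trm mk bt q L i' j' x' y + trm mk bt q L i' j' x' y')
      rw [← this]; ring
    · rcases Nat.lt_or_ge j' j with h2 | h2
      · have e1 : ∀ b, trm mk bt q L i' j' b y = trm mk bt q L i' j' b y' := fun b =>
          trm_congr_right hj' (pre_congr h2 (by omega) hy)
        simp only [g]
        rw [e1 x, e1 x']
        have := zmod2_add_self (trm mk bt q L i' j' x y' + trm mk bt q L i' j' x' y')
        rw [← this]; ring
      · have z : ∀ a b, (a = x ∨ a = x') → (b = y ∨ b = y') → trm mk bt q L i' j' a b = 0 := by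
          intro a b hA hB
          by_contra hne0
          exact key a b hA hB (trm_ne_zero hne0) ⟨h1, h2⟩
        simp only [g]
        rw [z x y (Or.inl rfl) (Or.inl rfl), z x y' (Or.inl rfl) (Or.inr rfl),
          z x' y (Or.inr rfl) (Or.inl rfl), z x' y' (Or.inr rfl) (Or.inr rfl)]
        simp
  have hsum2 : ∑ i' ∈ Finset.range L, ∑ j' ∈ Finset.range L, g i' j' = g i j := by
    rw [Finset.sum_eq_single_of_mem i (Finset.mem_range.2 hi)]
    · rw [Finset.sum_eq_single_of_mem j (Finset.mem_range.2 hj)]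
      intro j' hj' hne
      exact hz i (Finset.mem_range.2 hi) j' hj' (by
        intro h; exact hne (by simpa using h))
    · intro i' hi' hne
      apply Finset.sum_eq_zero
      intro j' hj'
      exact hz i' hi' j' hj' (by
        intro h; exact hne (by have := congrArg Prod.fst h; simpa using this))
  rw [hsum, hsum2] at hF
  have : g i j = 1 := hbit
  rw [this] at hF
  exact one_ne_zero hF

end Pool.Agent.Hhelper5.OrdR
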