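import Mathlib
import Pool.Agent.Hhelper5.OrdR.Pre

set_option autoImplicit false

namespace Pool.Agent.Hhelper5.OrdR

open Finset

/-- level of block `I` at scale `t` -/
def lev (q L C : ℕ) (π : ℕ → ℕ) (t I : ℕ) : ℕ :=
  Nat.findGreatest (fun ℓ => pre q L ℓ (π (I * C ^ t)) = pre q L ℓ (π ((I + 1) * C ^ t - 1))) L

/-- `π` is a strictly increasing map from `[0,C^T)` to `[0,q^L)` -/
structure Emb (q L C T : ℕ) (π : ℕ → ℕ) : Prop where
  hC : 2 ≤ C
  hq : 1 ≤ q
  mono : ∀ x y, x < y → y < C ^ T → π x < π y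
  lt : ∀ x, x < C ^ T → π x < q ^ L

/-- all children of `I` have the same level as `I` -/
def good (q L C : ℕ) (π : ℕ → ℕ) (t I : ℕ) : Prop :=
  ∀ c < C, lev q L C π (t - 1) (I * C + c) = lev q L C π t I

section basics
variable {q L C T : ℕ} {π : ℕ → ℕ}

lemma Emb.mono_le (h : Emb q L C T π) {x y : ℕ} (hxy : x ≤ y) (hy : y < C ^ T) : π x ≤ π y := by
  rcases Nat.lt_or_ge x y with h1 | h1
  · exact (h.mono x y h1 hy).le
  · rw [le_antisymm hxy h1]

lemma Emb.Cpos (h : Emb q L C T π) (s : ℕ) : 0 < C ^ s :=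
  Nat.pow_pos (by have := h.hC; omega)

lemma blk {C T t I : ℕ} (ht : t ≤ T) (hI : I < C ^ (T - t)) : (I + 1) * C ^ t ≤ C ^ T := by
  calc (I + 1) * C ^ t ≤ C ^ (T - t) * C ^ t := Nat.mul_le_mul_right _ hI
    _ = C ^ T := by rw [← pow_add]; congr 1; omega

lemma Emb.last_lt (h : Emb q L C T π) {t I : ℕ} (ht : t ≤ T) (hI : I < C ^ (T - t)) :
    (I + 1) * C ^ t - 1 < C ^ T := by
  have := blk ht hI
  have := h.Cpos T
  omega

lemma Emb.first_le_last (h : Emb q L C T π) (t I : ℕ) :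
    I * C ^ t ≤ (I + 1) * C ^ t - 1 := by
  have := h.Cpos t
  have e : (I + 1) * C ^ t = I * C ^ t + C ^ t := by ring
  omega

lemma Emb.first_lt (h : Emb q L C T π) {t I : ℕ} (ht : t ≤ T) (hI : I < C ^ (T - t)) :
    I * C ^ t < C ^ T :=
  lt_of_le_of_lt (h.first_le_last t I) (h.last_lt ht hI)

lemma lev_le {t I : ℕ} : lev q L C π t I ≤ L := Nat.findGreatest_le L

lemma Emb.lev_spec (h : Emb q L C T π) {t I : ℕ} (ht : t ≤ T) (hI : I < C ^ (T - t)) :
    pre q L (lev q L C π t I) (π (I * C ^ t)) =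
      pre q L (lev q L C π t I) (π ((I + 1) * C ^ t - 1)) := by
  apply Nat.findGreatest_spec (P := fun ℓ => pre q L ℓ (π (I * C ^ t)) =
    pre q L ℓ (π ((I + 1) * C ^ t - 1))) (m := 0) (Nat.zero_le L)
  rw [pre_zero (h.lt _ (h.first_lt ht hI)), pre_zero (h.lt _ (h.last_lt ht hI))]

lemma le_lev {t I i : ℕ} (hi : i ≤ L)
    (he : pre q L i (π (I * C ^ t)) = pre q L i (π ((I + 1) * C ^ t - 1))) :
    i ≤ lev q L C π t I :=
  Nat.le_findGreatest (P := fun ℓ => pre q L ℓ (π (I * C ^ t)) =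
    pre q L ℓ (π ((I + 1) * C ^ t - 1))) hi he

/-- squeeze: the prefix is constant on the block as soon as it agrees at the two ends -/
lemma Emb.const_of_ends (h : Emb q L C T π) {t I i : ℕ} (ht : t ≤ T) (hI : I < C ^ (T - t))
    (he : pre q L i (π (I * C ^ t)) = pre q L i (π ((I + 1) * C ^ t - 1)))
    {x : ℕ} (h1 : I * C ^ t ≤ x) (h2 : x ≤ (I + 1) * C ^ t - 1) :
    pre q L i (π x) = pre q L i (π (I * C ^ t)) := by
  apply le_antisymm
  · rw [he]
    exact pre_mono (h.mono_le h2 (h.last_lt ht hI))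
  · exact pre_mono (h.mono_le h1 (lt_of_le_of_lt h2 (h.last_lt ht hI)))

lemma mem_block {C t I x : ℕ} (hC : 0 < C ^ t) (hx : x / C ^ t = I) :
    I * C ^ t ≤ x ∧ x ≤ (I + 1) * C ^ t - 1 := by
  subst hx
  have h1 := Nat.div_mul_le_self x (C ^ t)
  have h2 : x < (x / C ^ t + 1) * C ^ t := by
    have := Nat.lt_mul_div_succ x hC
    calc x < C ^ t * (x / C ^ t + 1) := this
      _ = _ := by ring
  constructor
  · exact h1
  · omega

lemma Emb.lev_const (h : Emb q L C T π) {t I i : ℕ} (ht : t ≤ T) (hI : I < C ^ (T - t))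
    (hi : i ≤ lev q L C π t I) {x : ℕ} (h1 : I * C ^ t ≤ x) (h2 : x ≤ (I + 1) * C ^ t - 1) :
    pre q L i (π x) = pre q L i (π (I * C ^ t)) := by
  apply h.const_of_ends ht hI _ h1 h2
  exact pre_congr hi lev_le (h.lev_spec ht hI)

lemma Emb.first_lt_last (h : Emb q L C T π) {t I : ℕ} (ht1 : 1 ≤ t) :
    I * C ^ t < (I + 1) * C ^ t - 1 := by
  have h2 : 2 ≤ C ^ t := by
    calc 2 ≤ C := h.hC
      _ = C ^ 1 := (pow_one C).symm
      _ ≤ C ^ t := Nat.pow_le_pow_right (by have := h.hC; omega) ht1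
  have e : (I + 1) * C ^ t = I * C ^ t + C ^ t := by ring
  omega

lemma Emb.lev_lt (h : Emb q L C T π) {t I : ℕ} (ht1 : 1 ≤ t) (ht : t ≤ T)
    (hI : I < C ^ (T - t)) : lev q L C π t I < L := by
  rcases Nat.lt_or_ge (lev q L C π t I) L with h1 | h1
  · exact h1
  · exfalso
    have h2 : lev q L C π t I = L := le_antisymm lev_le h1
    have h3 := h.lev_spec ht hI
    rw [h2, pre_L, pre_L] at h3
    have := h.mono _ _ (h.first_lt_last (I := I) ht1) (h.last_lt ht hI)
    omega

lemma Emb.lev_strict (h : Emb q L C T π) {t I : ℕ} (ht1 : 1 ≤ t) (ht : t ≤ T)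
    (hI : I < C ^ (T - t)) :
    pre q L (lev q L C π t I + 1) (π (I * C ^ t)) <
      pre q L (lev q L C π t I + 1) (π ((I + 1) * C ^ t - 1)) := by
  apply lt_of_le_of_ne
  · exact pre_mono (h.mono_le (h.first_le_last t I) (h.last_lt ht hI))
  · intro he
    have := le_lev (q := q) (L := L) (C := C) (π := π) (t := t) (I := I)
      (i := lev q L C π t I + 1) (h.lev_lt ht1 ht hI) he
    omega

lemma div_sub_bounds {C s t p I : ℕ} (hC : 0 < C) (hst : s ≤ t) (hp : p / C ^ (t - s) = I) :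
    I * C ^ t ≤ p * C ^ s ∧ (p + 1) * C ^ s ≤ (I + 1) * C ^ t := by
  have hCt : 0 < C ^ (t - s) := Nat.pow_pos hC
  have e : C ^ t = C ^ (t - s) * C ^ s := by rw [← pow_add]; congr 1; omega
  have h1 : I * C ^ (t - s) ≤ p := by rw [← hp]; exact Nat.div_mul_le_self _ _
  have h2 : p + 1 ≤ (I + 1) * C ^ (t - s) := by
    rw [← hp]
    have := Nat.lt_mul_div_succ p hCt
    calc p + 1 ≤ C ^ (t - s) * (p / C ^ (t - s) + 1) := this
      _ = _ := by ring
  constructor
  · rw [e, ← mul_assoc]; exact Nat.mul_le_mul_right _ h1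
  · rw [e, ← mul_assoc]; exact Nat.mul_le_mul_right _ h2

lemma div_lt_pow {C T s t p : ℕ} (hst : s ≤ t) (ht : t ≤ T) (hp : p < C ^ (T - s)) :
    p / C ^ (t - s) < C ^ (T - t) := by
  apply Nat.div_lt_of_lt_mul
  calc p < C ^ (T - s) := hp
    _ = C ^ (t - s) * C ^ (T - t) := by rw [← pow_add]; congr 1; omega

lemma Emb.lev_anti (h : Emb q L C T π) {s t p : ℕ} (hst : s ≤ t) (ht : t ≤ T)
    (hp : p < C ^ (T - s)) :
    lev q L C π t (p / C ^ (t - s)) ≤ lev q L C π s p := by
  have hC : 0 < C := by have := h.hC; omega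
  obtain ⟨h1, h2⟩ := div_sub_bounds hC hst (rfl : p / C ^ (t - s) = p / C ^ (t - s))
  have hI := div_lt_pow hst ht hp
  apply le_lev lev_le
  have h3 := h.first_le_last s p
  have h5 := h.Cpos s
  have h6 : (p + 1) * C ^ s = p * C ^ s + C ^ s := by ring
  rw [h.lev_const ht hI le_rfl (x := p * C ^ s) h1 (by omega),
    h.lev_const ht hI le_rfl (x := (p + 1) * C ^ s - 1) (by omega) (by omega)]

/-- multiplicity lemma -/
lemma Emb.mult (h : Emb q L C T π) {s : ℕ} (hs1 : 1 ≤ s) (hs : s ≤ T) (i P : ℕ) :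
    #{p ∈ range (C ^ (T - s)) | lev q L C π s p = i ∧ pre q L i (π (p * C ^ s)) = P} ≤ q := by
  have hq : 0 < q := h.hq
  have key : ∀ a b, a < b → b < C ^ (T - s) → lev q L C π s b = i →
      pre q L (i + 1) (π ((a + 1) * C ^ s - 1)) < pre q L (i + 1) (π ((b + 1) * C ^ s - 1)) := by
    intro a b hab hb hlb
    have h1 := h.lev_strict hs1 hs hb
    rw [hlb] at h1
    refine lt_of_le_of_lt (pre_mono (h.mono_le ?_ (h.first_lt hs hb))) h1
    have : (a + 1) * C ^ s ≤ b * C ^ s := Nat.mul_le_mul_right _ hab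
    omega
  calc #{p ∈ range (C ^ (T - s)) | lev q L C π s p = i ∧ pre q L i (π (p * C ^ s)) = P}
      ≤ #(range q) := by
        apply Finset.card_le_card_of_injOn (fun p => dig q L i (π ((p + 1) * C ^ s - 1)))
        · intro p hp
          simp only [coe_range, Set.mem_Iio]
          exact dig_lt hq
        · intro a ha b hb hab
          simp only [coe_filter, mem_range, Set.mem_ofPred_eq] at ha hb
          obtain ⟨ha1, ha2, ha3⟩ := ha
          obtain ⟨hb1, hb2, hb3⟩ := hb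
          have hiL : i < L := by rw [← ha2]; exact h.lev_lt hs1 hs ha1
          have ea : pre q L i (π ((a + 1) * C ^ s - 1)) = P := by
            rw [← ha3]
            exact h.lev_const hs ha1 (by rw [ha2]) (h.first_le_last s a) le_rfl
          have eb : pre q L i (π ((b + 1) * C ^ s - 1)) = P := by
            rw [← hb3]
            exact h.lev_const hs hb1 (by rw [hb2]) (h.first_le_last s b) le_rfl
          have e1 := pre_eq_dig (q := q) (x := π ((a + 1) * C ^ s - 1)) hiL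
          have e2 := pre_eq_dig (q := q) (x := π ((b + 1) * C ^ s - 1)) hiL
          simp only at hab
          rw [ea, hab] at e1
          rw [eb] at e2
          by_contra hne
          rcases Nat.lt_or_gt_of_ne hne with h1 | h1
          · have := key a b h1 hb1 hb2
            omega
          · have := key b a h1 ha1 ha2
            omega
    _ = q := card_range q

end basics

/-- sums over blocks -/
lemma sum_div (B : ℕ) (hB : 0 < B) (f : ℕ → ℕ) (M : ℕ) :
    ∑ x ∈ range (M * B), f (x / B) = B * ∑ p ∈ range M, f p := by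
  induction M with
  | zero => simp
  | succ M ih =>
    rw [Nat.succ_mul, Finset.sum_range_add, ih, Finset.sum_range_succ, mul_add]
    congr 1
    have : ∀ r ∈ range B, f ((M * B + r) / B) = f M := by
      intro r hr
      rw [mem_range] at hr
      congr 1
      rw [Nat.add_comm, Nat.add_mul_div_right _ _ hB, Nat.div_eq_of_lt hr, zero_add]
    rw [Finset.sum_congr rfl this]
    simp

lemma card_div (B : ℕ) (hB : 0 < B) (Q : ℕ → Prop) [DecidablePred Q] (M : ℕ) :
    #{x ∈ range (M * B) | Q (x / B)} = B * #{p ∈ range M | Q p} := by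
  rw [Finset.card_filter, Finset.card_filter]
  exact sum_div B hB (fun p => if Q p then 1 else 0) M

lemma card_div_pow {C T t : ℕ} (hC : 0 < C) (ht : t ≤ T) (Q : ℕ → Prop) [DecidablePred Q] :
    #{x ∈ range (C ^ T) | Q (x / C ^ t)} = C ^ t * #{p ∈ range (C ^ (T - t)) | Q p} := by
  have e : C ^ T = C ^ (T - t) * C ^ t := by rw [← pow_add]; congr 1; omega
  rw [e]
  exact card_div (C ^ t) (Nat.pow_pos hC) Q _

end Pool.Agent.Hhelper5.OrdR
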