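import Mathlib
import Pool.Agent.Hhelper5.OrdR.Tree

set_option autoImplicit false

namespace Pool.Agent.Hhelper5.OrdR

open Finset

/-- level of the block at scale `t` containing `x` -/
def ell (q L C : ℕ) (π : ℕ → ℕ) (t x : ℕ) : ℕ := lev q L C π t (x / C ^ t)

section
variable {q L C T : ℕ} {π : ℕ → ℕ}

lemma Emb.div_lt (_h : Emb q L C T π) {t x : ℕ} (ht : t ≤ T) (hx : x < C ^ T) :
    x / C ^ t < C ^ (T - t) := by
  have := div_lt_pow (C := C) (T := T) (s := 0) (t := t) (p := x) (Nat.zero_le t) ht (by simpa using hx)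
  simpa using this

lemma div_pow_div {C s t x : ℕ} (hst : s ≤ t) : x / C ^ s / C ^ (t - s) = x / C ^ t := by
  rw [Nat.div_div_eq_div_mul, ← pow_add]
  congr 2
  omega

lemma Emb.ell_anti (h : Emb q L C T π) {s t x : ℕ} (hst : s ≤ t) (ht : t ≤ T)
    (hx : x < C ^ T) : ell q L C π t x ≤ ell q L C π s x := by
  unfold ell
  rw [← div_pow_div hst]
  exact h.lev_anti hst ht (h.div_lt (hst.trans ht) hx)

lemma ell_le {t x : ℕ} : ell q L C π t x ≤ L := lev_le

lemma Emb.ell_lt (h : Emb q L C T π) {t x : ℕ} (ht1 : 1 ≤ t) (ht : t ≤ T) (hx : x < C ^ T) :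
    ell q L C π t x < L := h.lev_lt ht1 ht (h.div_lt ht hx)

lemma Emb.ell_const (h : Emb q L C T π) {t x i : ℕ} (ht : t ≤ T) (hx : x < C ^ T)
    (hi : i ≤ ell q L C π t x) :
    pre q L i (π x) = pre q L i (π (x / C ^ t * C ^ t)) := by
  obtain ⟨h1, h2⟩ := mem_block (h.Cpos t) (rfl : x / C ^ t = x / C ^ t)
  exact h.lev_const ht (h.div_lt ht hx) hi h1 h2

open Classical in
lemma Emb.notgood_le_changed (h : Emb q L C T π) {t : ℕ} (ht1 : 1 ≤ t) (ht : t ≤ T) :
    #{I ∈ range (C ^ (T - t)) | ¬ good q L C π t I} ≤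
      #{p ∈ range (C ^ (T - (t - 1))) | lev q L C π (t - 1) p ≠ lev q L C π t (p / C)} := by
  have hC : 0 < C := by have := h.hC; omega
  calc #{I ∈ range (C ^ (T - t)) | ¬ good q L C π t I}
      ≤ #(image (fun p => p / C) {p ∈ range (C ^ (T - (t - 1))) |
          lev q L C π (t - 1) p ≠ lev q L C π t (p / C)}) := by
        apply Finset.card_le_card
        intro I hI
        simp only [mem_filter, mem_range, good, not_forall] at hI
        obtain ⟨hI1, c, hc, hne⟩ := hI
        have e : (I * C + c) / C = I := by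
          rw [Nat.add_comm, Nat.add_mul_div_right _ _ hC, Nat.div_eq_of_lt hc, zero_add]
        simp only [mem_image, mem_filter, mem_range]
        refine ⟨I * C + c, ⟨?_, ?_⟩, e⟩
        · calc I * C + c < (I + 1) * C := by rw [add_mul]; omega
            _ ≤ C ^ (T - t) * C := Nat.mul_le_mul_right _ hI1
            _ = C ^ (T - (t - 1)) := by rw [← pow_succ]; congr 1; omega
        · rw [e]; exact hne
    _ ≤ _ := Finset.card_image_le

open Classical in
lemma Emb.notgood_x (h : Emb q L C T π) {t : ℕ} (ht1 : 1 ≤ t) (ht : t ≤ T) :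
    #{x ∈ range (C ^ T) | ¬ good q L C π t (x / C ^ t)} ≤
      C * #{x ∈ range (C ^ T) | ell q L C π (t - 1) x ≠ ell q L C π t x} := by
  have hC : 0 < C := by have := h.hC; omega
  rw [card_div_pow hC ht (fun I => ¬ good q L C π t I)]
  have e : #{x ∈ range (C ^ T) | ell q L C π (t - 1) x ≠ ell q L C π t x} =
      C ^ (t - 1) * #{p ∈ range (C ^ (T - (t - 1))) |
        lev q L C π (t - 1) p ≠ lev q L C π t (p / C)} := by
    rw [← card_div_pow hC (by omega) (fun p => lev q L C π (t - 1) p ≠ lev q L C π t (p / C))]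
    congr 1
    apply Finset.filter_congr
    intro x _
    unfold ell
    have : x / C ^ (t - 1) / C = x / C ^ t := by
      have := div_pow_div (C := C) (s := t - 1) (t := t) (x := x) (by omega)
      rwa [show t - (t - 1) = 1 by omega, pow_one] at this
    rw [this]
  rw [e, ← mul_assoc, show C * C ^ (t - 1) = C ^ t by rw [← pow_succ']; congr 1; omega]
  exact Nat.mul_le_mul_left _ (h.notgood_le_changed ht1 ht)

lemma changes_le (f : ℕ → ℕ) (t₀ S : ℕ) (hf : ∀ t, t₀ ≤ t → t < t₀ + S → f (t + 1) ≤ f t) :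
    #{t ∈ Ioc t₀ (t₀ + S) | f (t - 1) ≠ f t} + f (t₀ + S) ≤ f t₀ := by
  induction S with
  | zero => simp
  | succ S ih =>
    have ih' := ih (fun t h1 h2 => hf t h1 (by omega))
    have h1 := hf (t₀ + S) (by omega) (by omega)
    have e : Ioc t₀ (t₀ + (S + 1)) = insert (t₀ + S + 1) (Ioc t₀ (t₀ + S)) := by
      ext a; simp only [mem_Ioc, mem_insert]; omega
    rw [e, Finset.filter_insert]
    simp only [Nat.add_sub_cancel]
    split_ifs with hne
    · rw [Finset.card_insert_of_notMem (by simp)]
      have : f (t₀ + S + 1) < f (t₀ + S) := lt_of_le_of_ne h1 (fun h => hne h.symm)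
      have e3 : t₀ + (S + 1) = t₀ + S + 1 := rfl
      rw [e3]
      omega
    · push Not at hne
      have e3 : t₀ + (S + 1) = t₀ + S + 1 := rfl
      rw [e3]
      omega

open Classical in
/-- the total proportion of not-good blocks over the scale window is at most `C * L` -/
theorem Emb.sum_notgood (h : Emb q L C T π) {t₀ S : ℕ} (hT : t₀ + S ≤ T) :
    ∑ t ∈ Ioc t₀ (t₀ + S), #{x ∈ range (C ^ T) | ¬ good q L C π t (x / C ^ t)} ≤
      C * L * C ^ T := by
  calc ∑ t ∈ Ioc t₀ (t₀ + S), #{x ∈ range (C ^ T) | ¬ good q L C π t (x / C ^ t)}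
      ≤ ∑ t ∈ Ioc t₀ (t₀ + S),
          C * #{x ∈ range (C ^ T) | ell q L C π (t - 1) x ≠ ell q L C π t x} := by
        apply Finset.sum_le_sum
        intro t ht
        rw [mem_Ioc] at ht
        exact h.notgood_x (by omega) (by omega)
    _ = C * ∑ x ∈ range (C ^ T),
          #{t ∈ Ioc t₀ (t₀ + S) | ell q L C π (t - 1) x ≠ ell q L C π t x} := by
        rw [← Finset.mul_sum]
        congr 1
        simp only [Finset.card_filter]
        exact Finset.sum_comm
    _ ≤ C * ∑ x ∈ range (C ^ T), L := by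
        apply Nat.mul_le_mul_left
        apply Finset.sum_le_sum
        intro x hx
        rw [mem_range] at hx
        have := changes_le (fun t => ell q L C π t x) t₀ S (fun t h1 h2 =>
          h.ell_anti (Nat.le_succ t) (by omega) hx)
        have h2 : ell q L C π t₀ x ≤ L := ell_le
        omega
    _ = C * L * C ^ T := by
        rw [Finset.sum_const, card_range, smul_eq_mul]; ring

open Classical in
/-- a block has few sub-blocks (at a fixed finer scale) with the same level -/
lemma Emb.same_x (h : Emb q L C T π) {t m : ℕ} (ht1 : m + 1 ≤ t) (ht : t ≤ T) :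
    #{x ∈ range (C ^ T) | ell q L C π (t - m) x = ell q L C π t x} ≤ q * C ^ (T - m) := by
  have hC : 0 < C := by have := h.hC; omega
  have e : #{x ∈ range (C ^ T) | ell q L C π (t - m) x = ell q L C π t x} =
      C ^ (t - m) * #{p ∈ range (C ^ (T - (t - m))) |
        lev q L C π (t - m) p = lev q L C π t (p / C ^ m)} := by
    rw [← card_div_pow hC (by omega) (fun p => lev q L C π (t - m) p = lev q L C π t (p / C ^ m))]
    congr 1
    apply Finset.filter_congr
    intro x _
    unfold ell
    have : x / C ^ (t - m) / C ^ m = x / C ^ t := by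
      have := div_pow_div (C := C) (s := t - m) (t := t) (x := x) (by omega)
      rwa [show t - (t - m) = m by omega] at this
    rw [this]
  have h2 : #{p ∈ range (C ^ (T - (t - m))) |
        lev q L C π (t - m) p = lev q L C π t (p / C ^ m)} ≤ q * #(range (C ^ (T - t))) := by
    apply Finset.card_le_mul_card_image_of_maps_to (f := fun p => p / C ^ m)
    · intro p hp
      simp only [mem_filter, mem_range] at hp
      rw [mem_range]
      have := div_lt_pow (C := C) (T := T) (s := t - m) (t := t) (p := p) (by omega) ht hp.1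
      rwa [show t - (t - m) = m by omega] at this
    · intro I hI
      rw [mem_range] at hI
      refine le_trans (Finset.card_le_card ?_) (h.mult (s := t - m) (by omega) (by omega)
        (lev q L C π t I) (pre q L (lev q L C π t I) (π (I * C ^ t))))
      intro p hp
      simp only [mem_filter, mem_range] at hp ⊢
      obtain ⟨⟨hp1, hp2⟩, hp3⟩ := hp
      refine ⟨hp1, by rw [hp2, hp3], ?_⟩
      have hp3' : p / C ^ (t - (t - m)) = I := by
        rw [show t - (t - m) = m by omega]; exact hp3
      obtain ⟨h1, h2⟩ := div_sub_bounds hC (by omega : t - m ≤ t) hp3'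
      apply h.lev_const ht hI le_rfl h1
      have h5 := h.Cpos (t - m)
      have h6 : (p + 1) * C ^ (t - m) = p * C ^ (t - m) + C ^ (t - m) := by ring
      omega
  rw [e]
  calc C ^ (t - m) * #{p ∈ range (C ^ (T - (t - m))) |
        lev q L C π (t - m) p = lev q L C π t (p / C ^ m)}
      ≤ C ^ (t - m) * (q * #(range (C ^ (T - t)))) := Nat.mul_le_mul_left _ h2
    _ = q * C ^ (T - m) := by
        rw [card_range, show T - m = (t - m) + (T - t) by omega, pow_add]; ring

/-- `x` is long if some level survives `m` scales above it -/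
def long (q L C : ℕ) (π : ℕ → ℕ) (t₀ S m x : ℕ) : Prop :=
  ∃ t ∈ Ioc (t₀ + m) (t₀ + S), ell q L C π (t - m) x = ell q L C π t x

open Classical in
theorem Emb.card_long (h : Emb q L C T π) {t₀ S m : ℕ} (hT : t₀ + S ≤ T) :
    #{x ∈ range (C ^ T) | long q L C π t₀ S m x} ≤ S * (q * C ^ (T - m)) := by
  calc #{x ∈ range (C ^ T) | long q L C π t₀ S m x}
      ≤ #((Ioc (t₀ + m) (t₀ + S)).biUnion (fun t =>
          {x ∈ range (C ^ T) | ell q L C π (t - m) x = ell q L C π t x})) := by
        apply Finset.card_le_card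
        intro x hx
        simp only [mem_filter, long] at hx
        obtain ⟨hx1, t, ht, hx2⟩ := hx
        simp only [mem_biUnion, mem_filter]
        exact ⟨t, ht, hx1, hx2⟩
    _ ≤ ∑ t ∈ Ioc (t₀ + m) (t₀ + S),
          #{x ∈ range (C ^ T) | ell q L C π (t - m) x = ell q L C π t x} :=
        Finset.card_biUnion_le
    _ ≤ ∑ t ∈ Ioc (t₀ + m) (t₀ + S), (q * C ^ (T - m)) := by
        apply Finset.sum_le_sum
        intro t ht
        rw [mem_Ioc] at ht
        exact h.same_x (by omega) (by omega)
    _ = (S - m) * (q * C ^ (T - m)) := by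
        rw [Finset.sum_const, Nat.card_Ioc, smul_eq_mul]
        congr 1
        omega
    _ ≤ S * (q * C ^ (T - m)) := Nat.mul_le_mul_right _ (Nat.sub_le _ _)

theorem Emb.mult_scale (h : Emb q L C T π) {t₀ S m x : ℕ} (hT : t₀ + S ≤ T) (hx : x < C ^ T)
    (hl : ¬ long q L C π t₀ S m x) (i : ℕ) :
    #{t ∈ Ioc t₀ (t₀ + S) | ell q L C π t x = i} ≤ m := by
  by_contra hc
  push Not at hc
  set s : Finset ℕ := {t ∈ Ioc t₀ (t₀ + S) | ell q L C π t x = i} with hs
  have hne : s.Nonempty := Finset.card_pos.1 (by omega)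
  have ha := s.min'_mem hne
  have hb := s.max'_mem hne
  set a := s.min' hne with haa
  set b := s.max' hne with hbb
  have hsub : s ⊆ Icc a b := by
    intro t ht
    rw [mem_Icc]
    exact ⟨s.min'_le t ht, s.le_max' t ht⟩
  have hcard := Finset.card_le_card hsub
  rw [Nat.card_Icc] at hcard
  rw [hs, mem_filter, mem_Ioc] at ha hb
  obtain ⟨⟨ha1, ha2⟩, ha3⟩ := ha
  obtain ⟨⟨hb1, hb2⟩, hb3⟩ := hb
  apply hl
  refine ⟨b, ?_, ?_⟩
  · rw [mem_Ioc]; omega
  · apply le_antisymm
    · calc ell q L C π (b - m) x ≤ ell q L C π a x := h.ell_anti (by omega) (by omega) hx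
        _ = i := ha3
        _ = ell q L C π b x := hb3.symm
    · exact h.ell_anti (by omega) (by omega) hx

end

end Pool.Agent.Hhelper5.OrdR
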