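import Mathlib
import Pool.Agent.Hhelper5.OrdR.Tree2

set_option autoImplicit false

namespace Pool.Agent.Hhelper5.OrdR

open Finset

section
variable {q L C T : ℕ} {π τ : ℕ → ℕ}

/-- few marks: at every point, few levels of each side see a mark -/
def Few (mk : ℕ → ℕ → ℕ → ℕ → Prop) (q L D : ℕ) : Prop :=
  ∀ x y, x < q ^ L → y < q ^ L →
    (∀ s : Finset ℕ, (∀ i ∈ s, i < L ∧ ∃ j < L, mk i j (pre q L i x) (pre q L j y)) → #s ≤ D) ∧
    (∀ s : Finset ℕ, (∀ j ∈ s, j < L ∧ ∃ i < L, mk i j (pre q L i x) (pre q L j y)) → #s ≤ D)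

open Classical in
lemma disabled_count (hπ : Emb q L C T π) (hτ : Emb q L C T τ)
    {mk : ℕ → ℕ → ℕ → ℕ → Prop} {D t₀ S m : ℕ} (hT : t₀ + S ≤ T) (hP0 : Few mk q L D)
    {x y : ℕ} (hx : x < C ^ T) (hy : y < C ^ T)
    (hlx : ¬ long q L C π t₀ S m x) (hly : ¬ long q L C τ t₀ S m y) :
    ∑ t ∈ Ioc t₀ (t₀ + S), ∑ t' ∈ Ioc t₀ (t₀ + S),
      (if En mk q (ell q L C π t x) (ell q L C τ t' y)
        (pre q L (ell q L C π t x) (π x)) (pre q L (ell q L C τ t' y) (τ y)) then 0 else 1) ≤
      2 * (D * m) * S := by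
  obtain ⟨hr, hc⟩ := hP0 (π x) (τ y) (hπ.lt x hx) (hτ.lt y hy)
  let Row : Finset ℕ := {i ∈ range L | ∃ j < L, mk i j (pre q L i (π x)) (pre q L j (τ y))}
  let Col : Finset ℕ := {j ∈ range L | ∃ i < L, mk i j (pre q L i (π x)) (pre q L j (τ y))}
  have hRow : #Row ≤ D := hr Row (by
    intro i hi
    simp only [Row, mem_filter, mem_range] at hi
    exact hi)
  have hCol : #Col ≤ D := hc Col (by
    intro i hi
    simp only [Col, mem_filter, mem_range] at hi
    exact hi)
  have h1 : #{t ∈ Ioc t₀ (t₀ + S) | ell q L C π t x ∈ Row} ≤ m * #Row := by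
    apply Finset.card_le_mul_card_image_of_maps_to (f := fun t => ell q L C π t x)
    · intro t ht
      exact (mem_filter.1 ht).2
    · intro i _
      refine le_trans (Finset.card_le_card ?_) (hπ.mult_scale hT hx hlx i)
      intro t ht
      simp only [mem_filter] at ht ⊢
      exact ⟨ht.1.1, ht.2⟩
  have h2 : #{t ∈ Ioc t₀ (t₀ + S) | ell q L C τ t y ∈ Col} ≤ m * #Col := by
    apply Finset.card_le_mul_card_image_of_maps_to (f := fun t => ell q L C τ t y)
    · intro t ht
      exact (mem_filter.1 ht).2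
    · intro i _
      refine le_trans (Finset.card_le_card ?_) (hτ.mult_scale hT hy hly i)
      intro t ht
      simp only [mem_filter] at ht ⊢
      exact ⟨ht.1.1, ht.2⟩
  calc ∑ t ∈ Ioc t₀ (t₀ + S), ∑ t' ∈ Ioc t₀ (t₀ + S),
      (if En mk q (ell q L C π t x) (ell q L C τ t' y)
        (pre q L (ell q L C π t x) (π x)) (pre q L (ell q L C τ t' y) (τ y)) then 0 else 1)
      ≤ ∑ t ∈ Ioc t₀ (t₀ + S), ∑ t' ∈ Ioc t₀ (t₀ + S),
          ((if ell q L C π t x ∈ Row then 1 else 0) + (if ell q L C τ t' y ∈ Col then 1 else 0)) := by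
        apply Finset.sum_le_sum
        intro t ht
        apply Finset.sum_le_sum
        intro t' ht'
        rw [mem_Ioc] at ht ht'
        have hi : ell q L C π t x < L := hπ.ell_lt (by omega) (by omega) hx
        have hj : ell q L C τ t' y < L := hτ.ell_lt (by omega) (by omega) hy
        by_cases hE : En mk q (ell q L C π t x) (ell q L C τ t' y)
          (pre q L (ell q L C π t x) (π x)) (pre q L (ell q L C τ t' y) (τ y))
        · simp only [hE, if_true]; exact Nat.zero_le _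
        · simp only [hE, if_false]
          have hor : ell q L C π t x ∈ Row ∨ ell q L C τ t' y ∈ Col := by
            unfold En at hE
            rw [not_and_or] at hE
            rcases hE with hE | hE
            · left
              push Not at hE
              obtain ⟨j', hj', hm⟩ := hE
              rw [← pre_pre (by omega) (by omega)] at hm
              simp only [Row, mem_filter, mem_range]
              exact ⟨hi, j', by omega, hm⟩
            · right
              push Not at hE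
              obtain ⟨i', hi', hm⟩ := hE
              rw [← pre_pre (by omega) (by omega)] at hm
              simp only [Col, mem_filter, mem_range]
              exact ⟨hj, i', by omega, hm⟩
          rcases hor with h | h
          · simp only [h, if_true]; omega
          · simp only [h, if_true]; omega
    _ = S * #{t ∈ Ioc t₀ (t₀ + S) | ell q L C π t x ∈ Row} +
        S * #{t ∈ Ioc t₀ (t₀ + S) | ell q L C τ t y ∈ Col} := by
        simp only [Finset.sum_add_distrib, Finset.sum_const, Nat.card_Ioc, smul_eq_mul,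
          Finset.card_filter, Nat.add_sub_cancel_left, Finset.mul_sum]
    _ ≤ S * (m * D) + S * (m * D) := by
        apply Nat.add_le_add
        · exact Nat.mul_le_mul_left _ (h1.trans (Nat.mul_le_mul_left _ hRow))
        · exact Nat.mul_le_mul_left _ (h2.trans (Nat.mul_le_mul_left _ hCol))
    _ = 2 * (D * m) * S := by ring

open Classical in
/-- double averaging over pairs of scales -/
theorem exists_scales (hπ : Emb q L C T π) (hτ : Emb q L C T τ)
    {mk : ℕ → ℕ → ℕ → ℕ → Prop} {D t₀ S m : ℕ}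
    (hT : t₀ + S ≤ T) (hS : 0 < S) (hmT : m ≤ T) (hCL : 10 * (C * L) ≤ S)
    (hDm : 100 * (D * m) ≤ S) (hlong : 100 * (S * q) ≤ C ^ m) (hP0 : Few mk q L D) :
    ∃ t ∈ Ioc t₀ (t₀ + S), ∃ t' ∈ Ioc t₀ (t₀ + S),
      C ^ T * C ^ T ≤ 2 * ∑ x ∈ range (C ^ T), ∑ y ∈ range (C ^ T),
        (if good q L C π t (x / C ^ t) ∧ good q L C τ t' (y / C ^ t') ∧
          En mk q (ell q L C π t x) (ell q L C τ t' y)
            (pre q L (ell q L C π t x) (π x)) (pre q L (ell q L C τ t' y) (τ y))
          then 1 else 0) := by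
  set Sc := Ioc t₀ (t₀ + S) with hSc
  set X := range (C ^ T) with hX
  have hcardSc : #Sc = S := by rw [hSc, Nat.card_Ioc]; omega
  have hcardX : #X = C ^ T := by rw [hX, card_range]
  set M := C ^ T with hM
  let e : ℕ → ℕ → ℕ → ℕ → ℕ := fun t t' x y =>
    if En mk q (ell q L C π t x) (ell q L C τ t' y)
            (pre q L (ell q L C π t x) (π x)) (pre q L (ell q L C τ t' y) (τ y)) then 0 else 1
  let a : ℕ → ℕ → ℕ := fun t x => if good q L C π t (x / C ^ t) then 0 else 1
  let b : ℕ → ℕ → ℕ := fun t' y => if good q L C τ t' (y / C ^ t') then 0 else 1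
  let g : ℕ → ℕ → ℕ → ℕ → ℕ := fun t t' x y =>
    if good q L C π t (x / C ^ t) ∧ good q L C τ t' (y / C ^ t') ∧
          En mk q (ell q L C π t x) (ell q L C τ t' y)
            (pre q L (ell q L C π t x) (π x)) (pre q L (ell q L C τ t' y) (τ y))
          then 1 else 0
  have hpt : ∀ t t' x y, 1 ≤ g t t' x y + a t x + b t' y + e t t' x y := by
    intro t t' x y
    simp only [g, a, b, e]
    by_cases h1 : good q L C π t (x / C ^ t)
    · by_cases h2 : good q L C τ t' (y / C ^ t')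
      · by_cases h3 : En mk q (ell q L C π t x) (ell q L C τ t' y)
            (pre q L (ell q L C π t x) (π x)) (pre q L (ell q L C τ t' y) (τ y))
        · simp [h1, h2, h3]
        · simp [h1, h2, h3]
      · simp [h1, h2]
    · simp only [h1, false_and, if_false]
      have e1 : (0 : ℕ) + 1 = 1 := rfl
      exact Nat.le_trans (Nat.le_of_eq e1.symm) (Nat.le_trans (Nat.le_add_right _ _)
        (Nat.le_add_right _ _))
  have hone : ∑ t ∈ Sc, ∑ t' ∈ Sc, ∑ x ∈ X, ∑ y ∈ X, 1 = S * S * (M * M) := by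
    simp only [Finset.sum_const, hcardSc, hcardX, smul_eq_mul]; ring
  have hsum : ∑ t ∈ Sc, ∑ t' ∈ Sc, ∑ x ∈ X, ∑ y ∈ X, 1 ≤
      ∑ t ∈ Sc, ∑ t' ∈ Sc, ∑ x ∈ X, ∑ y ∈ X, g t t' x y +
      ∑ t ∈ Sc, ∑ t' ∈ Sc, ∑ x ∈ X, ∑ y ∈ X, a t x +
      ∑ t ∈ Sc, ∑ t' ∈ Sc, ∑ x ∈ X, ∑ y ∈ X, b t' y +
      ∑ t ∈ Sc, ∑ t' ∈ Sc, ∑ x ∈ X, ∑ y ∈ X, e t t' x y := by
    simp only [← Finset.sum_add_distrib]
    apply Finset.sum_le_sum; intro t _
    apply Finset.sum_le_sum; intro t' _
    apply Finset.sum_le_sum; intro x _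
    apply Finset.sum_le_sum; intro y _
    exact hpt t t' x y
  have ha : ∑ t ∈ Sc, ∑ t' ∈ Sc, ∑ x ∈ X, ∑ y ∈ X, a t x ≤ S * M * (C * L * M) := by
    have h1 := hπ.sum_notgood (t₀ := t₀) (S := S) hT
    calc ∑ t ∈ Sc, ∑ t' ∈ Sc, ∑ x ∈ X, ∑ y ∈ X, a t x
        = S * M * ∑ t ∈ Sc, ∑ x ∈ X, a t x := by
          simp only [Finset.sum_const, hcardSc, hcardX, smul_eq_mul, Finset.mul_sum]
          apply Finset.sum_congr rfl; intro t _
          apply Finset.sum_congr rfl; intro x _
          ring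
      _ = S * M * ∑ t ∈ Ioc t₀ (t₀ + S),
            #{x ∈ range (C ^ T) | ¬ good q L C π t (x / C ^ t)} := by
          congr 1
          apply Finset.sum_congr rfl
          intro t _
          rw [Finset.card_filter]
          apply Finset.sum_congr rfl
          intro x _
          simp only [a]
          by_cases h : good q L C π t (x / C ^ t) <;> simp [h]
      _ ≤ _ := Nat.mul_le_mul_left _ h1
  have hb : ∑ t ∈ Sc, ∑ t' ∈ Sc, ∑ x ∈ X, ∑ y ∈ X, b t' y ≤ S * M * (C * L * M) := by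
    have h1 := hτ.sum_notgood (t₀ := t₀) (S := S) hT
    calc ∑ t ∈ Sc, ∑ t' ∈ Sc, ∑ x ∈ X, ∑ y ∈ X, b t' y
        = S * M * ∑ t ∈ Sc, ∑ x ∈ X, b t x := by
          simp only [Finset.sum_const, hcardSc, hcardX, smul_eq_mul, Finset.mul_sum]
          apply Finset.sum_congr rfl; intro t _
          apply Finset.sum_congr rfl; intro x _
          ring
      _ = S * M * ∑ t ∈ Ioc t₀ (t₀ + S),
            #{x ∈ range (C ^ T) | ¬ good q L C τ t (x / C ^ t)} := by
          congr 1
          apply Finset.sum_congr rfl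
          intro t _
          rw [Finset.card_filter]
          apply Finset.sum_congr rfl
          intro x _
          simp only [b]
          by_cases h : good q L C τ t (x / C ^ t) <;> simp [h]
      _ ≤ _ := Nat.mul_le_mul_left _ h1
  -- long points
  have hlongcount : ∀ ρ : ℕ → ℕ, Emb q L C T ρ →
      100 * #{x ∈ X | long q L C ρ t₀ S m x} ≤ M := by
    intro ρ hρ
    have h1 := hρ.card_long (t₀ := t₀) (S := S) (m := m) hT
    calc 100 * #{x ∈ X | long q L C ρ t₀ S m x} ≤ 100 * (S * (q * C ^ (T - m))) :=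
          Nat.mul_le_mul_left _ h1
      _ = 100 * (S * q) * C ^ (T - m) := by ring
      _ ≤ C ^ m * C ^ (T - m) := Nat.mul_le_mul_right _ hlong
      _ = M := by rw [hM, ← pow_add]; congr 1; omega
  have he : 100 * ∑ t ∈ Sc, ∑ t' ∈ Sc, ∑ x ∈ X, ∑ y ∈ X, e t t' x y ≤ 4 * (S * S * (M * M)) := by
    have hswap : ∑ t ∈ Sc, ∑ t' ∈ Sc, ∑ x ∈ X, ∑ y ∈ X, e t t' x y =
        ∑ x ∈ X, ∑ y ∈ X, ∑ t ∈ Sc, ∑ t' ∈ Sc, e t t' x y := by
      calc ∑ t ∈ Sc, ∑ t' ∈ Sc, ∑ x ∈ X, ∑ y ∈ X, e t t' x y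
          = ∑ p ∈ Sc ×ˢ Sc, ∑ r ∈ X ×ˢ X, e p.1 p.2 r.1 r.2 := by
            rw [Finset.sum_product]
            simp only [Finset.sum_product]
        _ = ∑ r ∈ X ×ˢ X, ∑ p ∈ Sc ×ˢ Sc, e p.1 p.2 r.1 r.2 := Finset.sum_comm
        _ = _ := by
            rw [Finset.sum_product]
            simp only [Finset.sum_product]
    rw [hswap]
    have hxy : ∀ x ∈ X, ∀ y ∈ X, ∑ t ∈ Sc, ∑ t' ∈ Sc, e t t' x y ≤
        2 * (D * m) * S + S * S * (if long q L C π t₀ S m x then 1 else 0) +
          S * S * (if long q L C τ t₀ S m y then 1 else 0) := by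
      intro x hx y hy
      rw [hX, mem_range] at hx hy
      have htriv : ∑ t ∈ Sc, ∑ t' ∈ Sc, e t t' x y ≤ S * S := by
        calc ∑ t ∈ Sc, ∑ t' ∈ Sc, e t t' x y ≤ ∑ t ∈ Sc, ∑ t' ∈ Sc, 1 := by
              apply Finset.sum_le_sum; intro t _
              apply Finset.sum_le_sum; intro t' _
              simp only [e]; split_ifs <;> simp
          _ = S * S := by
              simp only [Finset.sum_const, hcardSc, smul_eq_mul]; ring
      by_cases h1 : long q L C π t₀ S m x
      · simp only [h1, if_true]; omega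
      · by_cases h2 : long q L C τ t₀ S m y
        · simp only [h2, if_true]; omega
        · have := disabled_count hπ hτ hT hP0 hx hy h1 h2
          simp only [h1, h2, if_false]
          simpa using this
    have hs2 : ∑ x ∈ X, ∑ y ∈ X, ∑ t ∈ Sc, ∑ t' ∈ Sc, e t t' x y ≤
        M * M * (2 * (D * m) * S) + S * S * (M * #{x ∈ X | long q L C π t₀ S m x}) +
          S * S * (M * #{x ∈ X | long q L C τ t₀ S m x}) := by
      calc ∑ x ∈ X, ∑ y ∈ X, ∑ t ∈ Sc, ∑ t' ∈ Sc, e t t' x y
          ≤ ∑ x ∈ X, ∑ y ∈ X, (2 * (D * m) * S +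
            S * S * (if long q L C π t₀ S m x then 1 else 0) +
            S * S * (if long q L C τ t₀ S m y then 1 else 0)) := by
            apply Finset.sum_le_sum; intro x hx
            apply Finset.sum_le_sum; intro y hy
            exact hxy x hx y hy
        _ = _ := by
            simp only [Finset.sum_add_distrib, Finset.sum_const, hcardX, smul_eq_mul,
              Finset.card_filter, Finset.mul_sum]
            have c1 : ∀ i, M * (S * S * if long q L C π t₀ S m i then 1 else 0) =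
              S * S * (M * if long q L C π t₀ S m i then 1 else 0) := fun i => by ring
            have c2 : ∀ i, M * (S * S * if long q L C τ t₀ S m i then 1 else 0) =
              S * S * (M * if long q L C τ t₀ S m i then 1 else 0) := fun i => by ring
            rw [Finset.sum_congr rfl (fun i _ => c1 i), Finset.sum_congr rfl (fun i _ => c2 i)]
            ring
    have l1 := hlongcount π hπ
    have l2 := hlongcount τ hτ
    calc 100 * ∑ x ∈ X, ∑ y ∈ X, ∑ t ∈ Sc, ∑ t' ∈ Sc, e t t' x y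
        ≤ 100 * (M * M * (2 * (D * m) * S) + S * S * (M * #{x ∈ X | long q L C π t₀ S m x}) +
          S * S * (M * #{x ∈ X | long q L C τ t₀ S m x})) := Nat.mul_le_mul_left _ hs2
      _ = M * M * (2 * (100 * (D * m)) * S) +
          S * S * (M * (100 * #{x ∈ X | long q L C π t₀ S m x})) +
          S * S * (M * (100 * #{x ∈ X | long q L C τ t₀ S m x})) := by ring
      _ ≤ M * M * (2 * S * S) + S * S * (M * M) + S * S * (M * M) := by gcongr
      _ = 4 * (S * S * (M * M)) := by ring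
  -- combine
  have hg : S * S * (M * M) ≤ 2 * ∑ t ∈ Sc, ∑ t' ∈ Sc, ∑ x ∈ X, ∑ y ∈ X, g t t' x y := by
    rw [hone] at hsum
    have ha2 : 10 * (S * M * (C * L * M)) ≤ S * S * (M * M) := by
      calc 10 * (S * M * (C * L * M)) = S * (10 * (C * L)) * (M * M) := by ring
        _ ≤ S * S * (M * M) := by gcongr
    omega
  have hprod : ∑ p ∈ Sc ×ˢ Sc, M * M ≤
      ∑ p ∈ Sc ×ˢ Sc, 2 * ∑ x ∈ X, ∑ y ∈ X, g p.1 p.2 x y := by
    rw [Finset.sum_const, Finset.card_product, hcardSc, smul_eq_mul, ← Finset.mul_sum,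
      Finset.sum_product]
    exact hg
  have hne : (Sc ×ˢ Sc).Nonempty := by
    rw [← Finset.card_pos, Finset.card_product, hcardSc]
    exact Nat.mul_pos hS hS
  obtain ⟨p, hp, hp2⟩ := Finset.exists_le_of_sum_le hne hprod
  rw [mem_product] at hp
  exact ⟨p.1, hp.1, p.2, hp.2, hp2⟩

open Classical in
/-- the set of useful block pairs at the chosen scales and levels -/
noncomputable def useful (mk : ℕ → ℕ → ℕ → ℕ → Prop) (q L C T : ℕ) (π τ : ℕ → ℕ)
    (t t' i j : ℕ) : Finset (ℕ × ℕ) :=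
  {IJ ∈ range (C ^ (T - t)) ×ˢ range (C ^ (T - t')) |
    good q L C π t IJ.1 ∧ good q L C τ t' IJ.2 ∧ lev q L C π t IJ.1 = i ∧
    lev q L C τ t' IJ.2 = j ∧
    En mk q i j (pre q L i (π (IJ.1 * C ^ t))) (pre q L j (τ (IJ.2 * C ^ t')))}

open Classical in
/-- pigeonhole over levels -/
theorem exists_core (hπ : Emb q L C T π) (hτ : Emb q L C T τ)
    {mk : ℕ → ℕ → ℕ → ℕ → Prop} {D t₀ S m : ℕ}
    (hT : t₀ + S ≤ T) (hS : 0 < S) (hmT : m ≤ T) (hCL : 10 * (C * L) ≤ S)
    (hDm : 100 * (D * m) ≤ S) (hlong : 100 * (S * q) ≤ C ^ m) (hP0 : Few mk q L D) :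
    ∃ t ∈ Ioc t₀ (t₀ + S), ∃ t' ∈ Ioc t₀ (t₀ + S), ∃ i < L, ∃ j < L,
      C ^ (T - t) * C ^ (T - t') ≤ 2 * (L * L) * #(useful mk q L C T π τ t t' i j) := by
  obtain ⟨t, ht, t', ht', hbig⟩ := exists_scales hπ hτ hT hS hmT hCL hDm hlong hP0
  refine ⟨t, ht, t', ht', ?_⟩
  rw [mem_Ioc] at ht ht'
  have hC : 0 < C := by have := hπ.hC; omega
  -- pass to blocks
  let G : ℕ → ℕ → ℕ := fun I J =>
    if good q L C π t I ∧ good q L C τ t' J ∧
          En mk q (lev q L C π t I) (lev q L C τ t' J)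
            (pre q L (lev q L C π t I) (π (I * C ^ t)))
            (pre q L (lev q L C τ t' J) (τ (J * C ^ t'))) then 1 else 0
  have hEA : C ^ T = C ^ (T - t) * C ^ t := by rw [← pow_add]; congr 1; omega
  have hEB : C ^ T = C ^ (T - t') * C ^ t' := by rw [← pow_add]; congr 1; omega
  have hblock : ∑ x ∈ range (C ^ T), ∑ y ∈ range (C ^ T),
        (if good q L C π t (x / C ^ t) ∧ good q L C τ t' (y / C ^ t') ∧
          En mk q (ell q L C π t x) (ell q L C τ t' y)
            (pre q L (ell q L C π t x) (π x)) (pre q L (ell q L C τ t' y) (τ y))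
          then 1 else 0) = C ^ t * (C ^ t' *
          ∑ I ∈ range (C ^ (T - t)), ∑ J ∈ range (C ^ (T - t')), G I J) := by
    calc _ = ∑ x ∈ range (C ^ T), ∑ y ∈ range (C ^ T), G (x / C ^ t) (y / C ^ t') := by
          apply Finset.sum_congr rfl; intro x hx
          apply Finset.sum_congr rfl; intro y hy
          rw [mem_range] at hx hy
          simp only [G]
          rw [hπ.ell_const (by omega) hx le_rfl, hτ.ell_const (by omega) hy le_rfl]
          rfl
      _ = ∑ x ∈ range (C ^ T), C ^ t' * ∑ J ∈ range (C ^ (T - t')), G (x / C ^ t) J := by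
          apply Finset.sum_congr rfl; intro x _
          rw [hEB]
          exact sum_div (C ^ t') (Nat.pow_pos hC) (fun J => G (x / C ^ t) J) _
      _ = _ := by
          rw [hEA, sum_div (C ^ t) (Nat.pow_pos hC)
            (fun I => C ^ t' * ∑ J ∈ range (C ^ (T - t')), G I J), ← Finset.mul_sum]
  rw [hblock] at hbig
  have hbig2 : C ^ (T - t) * C ^ (T - t') ≤
      2 * ∑ I ∈ range (C ^ (T - t)), ∑ J ∈ range (C ^ (T - t')), G I J := by
    have hpos : 0 < C ^ t * C ^ t' := Nat.mul_pos (Nat.pow_pos hC) (Nat.pow_pos hC)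
    refine Nat.le_of_mul_le_mul_left ?_ hpos
    calc C ^ t * C ^ t' * (C ^ (T - t) * C ^ (T - t'))
        = (C ^ (T - t) * C ^ t) * (C ^ (T - t') * C ^ t') := by ring
      _ = C ^ T * C ^ T := by rw [← hEA, ← hEB]
      _ ≤ _ := hbig
      _ = _ := by ring
  -- total set
  let Tot : Finset (ℕ × ℕ) := {IJ ∈ range (C ^ (T - t)) ×ˢ range (C ^ (T - t')) |
    good q L C π t IJ.1 ∧ good q L C τ t' IJ.2 ∧
          En mk q (lev q L C π t IJ.1) (lev q L C τ t' IJ.2)
            (pre q L (lev q L C π t IJ.1) (π (IJ.1 * C ^ t)))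
            (pre q L (lev q L C τ t' IJ.2) (τ (IJ.2 * C ^ t')))}
  have hTot : ∑ I ∈ range (C ^ (T - t)), ∑ J ∈ range (C ^ (T - t')), G I J = #Tot := by
    simp only [Tot, Finset.card_filter, Finset.sum_product, G]
  rw [hTot] at hbig2
  have hmaps : ∀ p ∈ Tot, (lev q L C π t p.1, lev q L C τ t' p.2) ∈ range L ×ˢ range L := by
    intro p hp
    simp only [Tot, mem_filter, mem_product, mem_range] at hp
    rw [mem_product, mem_range, mem_range]
    exact ⟨hπ.lev_lt (by omega) (by omega) hp.1.1, hτ.lev_lt (by omega) (by omega) hp.1.2⟩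
  have hfib := Finset.card_eq_sum_card_fiberwise (s := Tot) (t := range L ×ˢ range L)
    (f := fun p => (lev q L C π t p.1, lev q L C τ t' p.2)) hmaps
  have hfib2 : #Tot = ∑ ij ∈ range L ×ˢ range L, #(useful mk q L C T π τ t t' ij.1 ij.2) := by
    rw [hfib]
    apply Finset.sum_congr rfl
    intro ij _
    congr 1
    ext p
    simp only [Tot, useful, mem_filter, mem_product, mem_range]
    constructor
    · rintro ⟨⟨h1, h2, h3, h4⟩, h5⟩
      rw [← h5]
      exact ⟨h1, h2, h3, rfl, rfl, h4⟩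
    · rintro ⟨h1, h2, h3, h4, h5, h6⟩
      refine ⟨⟨h1, h2, h3, ?_⟩, ?_⟩
      · rw [h4, h5]; exact h6
      · rw [h4, h5]
  have hL : 0 < L := by
    have h0 : 0 < C ^ (T - t) := Nat.pow_pos hC
    have := hπ.lev_lt (t := t) (I := 0) (by omega) (by omega) h0
    omega
  have hne : (range L ×ˢ range L).Nonempty := by
    rw [← Finset.card_pos, Finset.card_product, card_range]
    exact Nat.mul_pos hL hL
  have hsum3 : ∑ ij ∈ range L ×ˢ range L, C ^ (T - t) * C ^ (T - t') ≤
      ∑ ij ∈ range L ×ˢ range L, 2 * (L * L) * #(useful mk q L C T π τ t t' ij.1 ij.2) := by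
    have e2 : ∑ ij ∈ range L ×ˢ range L, 2 * (L * L) * #(useful mk q L C T π τ t t' ij.1 ij.2) =
      2 * (L * L) * #Tot := by rw [← Finset.mul_sum, ← hfib2]
    rw [e2, Finset.sum_const, Finset.card_product, card_range, smul_eq_mul]
    calc L * L * (C ^ (T - t) * C ^ (T - t')) ≤ L * L * (2 * #Tot) := Nat.mul_le_mul_left _ hbig2
      _ = _ := by ring
  obtain ⟨ij, hij, hij2⟩ := Finset.exists_le_of_sum_le hne hsum3
  rw [mem_product, mem_range, mem_range] at hij
  exact ⟨ij.1, hij.1, ij.2, hij.2, hij2⟩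

/-- the boxes met by useful block pairs -/
noncomputable def boxes (mk : ℕ → ℕ → ℕ → ℕ → Prop) (q L C T : ℕ) (π τ : ℕ → ℕ)
    (t t' i j : ℕ) : Finset (ℕ × ℕ) :=
  (useful mk q L C T π τ t t' i j).image
    (fun IJ => (pre q L i (π (IJ.1 * C ^ t)), pre q L j (τ (IJ.2 * C ^ t'))))

open Classical in
theorem useful_le_boxes (hπ : Emb q L C T π) (hτ : Emb q L C T τ)
    (mk : ℕ → ℕ → ℕ → ℕ → Prop) {t t' : ℕ} (i j : ℕ) (ht1 : 1 ≤ t) (ht : t ≤ T)
    (ht1' : 1 ≤ t') (ht' : t' ≤ T) :
    #(useful mk q L C T π τ t t' i j) ≤ q * q * #(boxes mk q L C T π τ t t' i j) := by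
  unfold boxes
  apply Finset.card_le_mul_card_image
  intro PQ _
  calc #{a ∈ useful mk q L C T π τ t t' i j |
        (pre q L i (π (a.1 * C ^ t)), pre q L j (τ (a.2 * C ^ t'))) = PQ}
      ≤ #({p ∈ range (C ^ (T - t)) | lev q L C π t p = i ∧ pre q L i (π (p * C ^ t)) = PQ.1} ×ˢ
          {p ∈ range (C ^ (T - t')) | lev q L C τ t' p = j ∧
            pre q L j (τ (p * C ^ t')) = PQ.2}) := by
        apply Finset.card_le_card
        intro a ha
        simp only [useful, mem_filter, mem_product, mem_range] at ha ⊢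
        obtain ⟨⟨⟨h1, h2⟩, h3, h4, h5, h6, h7⟩, h8⟩ := ha
        refine ⟨⟨h1, h5, ?_⟩, ⟨h2, h6, ?_⟩⟩
        · rw [← h8]
        · rw [← h8]
    _ ≤ q * q := by
        rw [Finset.card_product]
        exact Nat.mul_le_mul (hπ.mult ht1 ht i PQ.1) (hτ.mult ht1' ht' j PQ.2)

end

end Pool.Agent.Hhelper5.OrdR
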