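import Mathlib
import Pool.Agent.Hhelper5.OrdR.Avg

set_option autoImplicit false

namespace Pool.Agent.Hhelper5.OrdR

open Finset

/-- the vertex of the block `I` at scale `t`, in child `2k`, coding `J` and the type `y` -/
def code (C m t I J k y : ℕ) : ℕ := I * C ^ t + 2 * k * C ^ (t - 1) + (J * C ^ m + y)

/-- code of a pair of scales -/
def ty (t₀ S t t' : ℕ) : ℕ := (t - t₀ - 1) * S + (t' - t₀ - 1)

lemma ty_lt {t₀ S t t' : ℕ} (ht : t ∈ Ioc t₀ (t₀ + S)) (ht' : t' ∈ Ioc t₀ (t₀ + S)) :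
    ty t₀ S t t' < S * S := by
  rw [mem_Ioc] at ht ht'
  unfold ty
  have h1 : t - t₀ - 1 + 1 ≤ S := by omega
  have h2 : t' - t₀ - 1 < S := by omega
  calc (t - t₀ - 1) * S + (t' - t₀ - 1) < (t - t₀ - 1) * S + S := by omega
    _ = (t - t₀ - 1 + 1) * S := by ring
    _ ≤ S * S := Nat.mul_le_mul_right _ h1

lemma ty_inj {t₀ S t t' u u' : ℕ} (ht : t ∈ Ioc t₀ (t₀ + S)) (ht' : t' ∈ Ioc t₀ (t₀ + S))
    (hu : u ∈ Ioc t₀ (t₀ + S)) (hu' : u' ∈ Ioc t₀ (t₀ + S))
    (h : ty t₀ S t t' = ty t₀ S u u') : t = u ∧ t' = u' := by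
  rw [mem_Ioc] at ht ht' hu hu'
  unfold ty at h
  have hS : 0 < S := by omega
  have h1 : t' - t₀ - 1 < S := by omega
  have h2 : u' - t₀ - 1 < S := by omega
  have e1 : ((t - t₀ - 1) * S + (t' - t₀ - 1)) / S = t - t₀ - 1 := by
    rw [Nat.add_comm, Nat.add_mul_div_right _ _ hS, Nat.div_eq_of_lt h1, zero_add]
  have e2 : ((u - t₀ - 1) * S + (u' - t₀ - 1)) / S = u - t₀ - 1 := by
    rw [Nat.add_comm, Nat.add_mul_div_right _ _ hS, Nat.div_eq_of_lt h2, zero_add]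
  rw [h, e2] at e1
  rw [← e1] at h
  constructor <;> omega

section
variable {C m t I J k y : ℕ}

lemma rest_lt (hm : m ≤ t - 1) (hJ : J < C ^ (t - 1 - m)) (hy : y < C ^ m) :
    J * C ^ m + y < C ^ (t - 1) := by
  calc J * C ^ m + y < J * C ^ m + C ^ m := by omega
    _ = (J + 1) * C ^ m := by ring
    _ ≤ C ^ (t - 1 - m) * C ^ m := Nat.mul_le_mul_right _ hJ
    _ = C ^ (t - 1) := by rw [← pow_add]; congr 1; omega

lemma code_eq (ht : 1 ≤ t) : code C m t I J k y =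
    (I * C + 2 * k) * C ^ (t - 1) + (J * C ^ m + y) := by
  unfold code
  have e : C ^ t = C * C ^ (t - 1) := by rw [← pow_succ']; congr 1; omega
  rw [e]
  ring

lemma code_div_child (hC : 0 < C) (ht : 1 ≤ t) (hm : m ≤ t - 1) (hJ : J < C ^ (t - 1 - m))
    (hy : y < C ^ m) : code C m t I J k y / C ^ (t - 1) = I * C + 2 * k := by
  rw [code_eq ht, Nat.add_comm, Nat.add_mul_div_right _ _ (Nat.pow_pos hC),
    Nat.div_eq_of_lt (rest_lt hm hJ hy), zero_add]

lemma code_div (hC : 0 < C) (ht : 1 ≤ t) (hm : m ≤ t - 1) (hJ : J < C ^ (t - 1 - m))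
    (hy : y < C ^ m) (hk : 2 * k < C) : code C m t I J k y / C ^ t = I := by
  have e : code C m t I J k y / C ^ t = code C m t I J k y / C ^ (t - 1) / C := by
    rw [Nat.div_div_eq_div_mul, ← pow_succ]; congr 2; omega
  rw [e, code_div_child hC ht hm hJ hy, Nat.add_comm, Nat.add_mul_div_right _ _ hC,
    Nat.div_eq_of_lt hk, zero_add]

lemma code_mod (ht : 1 ≤ t) (hm : m ≤ t - 1) (hy : y < C ^ m) :
    code C m t I J k y % C ^ m = y := by
  have e : code C m t I J k y = y + C ^ m * ((I * C + 2 * k) * C ^ (t - 1 - m) + J) := by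
    rw [code_eq ht]
    have : C ^ (t - 1) = C ^ m * C ^ (t - 1 - m) := by rw [← pow_add]; congr 1; omega
    rw [this]; ring
  rw [e, Nat.add_mul_mod_self_left, Nat.mod_eq_of_lt hy]

lemma code_J (hC : 0 < C) (ht : 1 ≤ t) (hm : m ≤ t - 1) (hJ : J < C ^ (t - 1 - m))
    (hy : y < C ^ m) : code C m t I J k y / C ^ m % C ^ (t - 1 - m) = J := by
  have e : code C m t I J k y = y + C ^ m * ((I * C + 2 * k) * C ^ (t - 1 - m) + J) := by
    rw [code_eq ht]
    have : C ^ (t - 1) = C ^ m * C ^ (t - 1 - m) := by rw [← pow_add]; congr 1; omega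
    rw [this]; ring
  rw [e, Nat.add_mul_div_left _ _ (Nat.pow_pos hC), Nat.div_eq_of_lt hy, zero_add,
    Nat.add_comm, Nat.add_mul_mod_self_right, Nat.mod_eq_of_lt hJ]

lemma code_lt {T : ℕ} (hC : 0 < C) (ht : 1 ≤ t) (htT : t ≤ T) (hm : m ≤ t - 1)
    (hJ : J < C ^ (t - 1 - m)) (hy : y < C ^ m) (hk : 2 * k < C) (hI : I < C ^ (T - t)) :
    code C m t I J k y < C ^ T := by
  have h1 := code_div (I := I) hC ht hm hJ hy hk
  have h2 := mem_block (Nat.pow_pos hC) h1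
  have h3 := blk htT hI
  have : 0 < C ^ T := Nat.pow_pos hC
  omega

end

/-- parameters of the construction -/
structure Par (q L C D h m t₀ S T : ℕ) : Prop where
  hD : D = 2 * h
  hh : 1 ≤ h
  hDC : 2 * D ≤ C
  hq : 1 ≤ q
  hS : 0 < S
  hT : t₀ + S ≤ T
  hmt : m ≤ t₀
  hTt : T + m ≤ 2 * t₀ + 1
  hSS : S * S ≤ C ^ m
  hCL : 10 * (C * L) ≤ S
  hDm : 100 * (D * m) ≤ S
  hlong : 100 * (S * q) ≤ C ^ m
  ht0 : 1 ≤ t₀

/-- admissible parameters of an edge -/
structure Adm (C D t₀ S T t t' I J k l : ℕ) : Prop where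
  ht : t ∈ Ioc t₀ (t₀ + S)
  ht' : t' ∈ Ioc t₀ (t₀ + S)
  hI : I < C ^ (T - t)
  hJ : J < C ^ (T - t')
  hk : k < D
  hl : l < D

section
variable {q L C D h m t₀ S T : ℕ}

lemma Par.hC2 (p : Par q L C D h m t₀ S T) : 2 ≤ C := by
  have := p.hDC; have := p.hD; have := p.hh; omega

lemma Par.hCpos (p : Par q L C D h m t₀ S T) : 0 < C := by
  have := p.hC2; omega

lemma Par.lt_pow (p : Par q L C D h m t₀ S T) {t t' J : ℕ} (ht : t ∈ Ioc t₀ (t₀ + S))
    (ht' : t' ∈ Ioc t₀ (t₀ + S)) (hJ : J < C ^ (T - t')) : J < C ^ (t - 1 - m) := by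
  rw [mem_Ioc] at ht ht'
  refine lt_of_lt_of_le hJ (Nat.pow_le_pow_right p.hCpos ?_)
  have := p.hTt; have := p.hmt
  omega

lemma Par.ty_lt' (p : Par q L C D h m t₀ S T) {t t' : ℕ} (ht : t ∈ Ioc t₀ (t₀ + S))
    (ht' : t' ∈ Ioc t₀ (t₀ + S)) : ty t₀ S t t' < C ^ m :=
  lt_of_lt_of_le (ty_lt ht ht') p.hSS

/-- the code vertex determines everything -/
lemma Par.code_inj (p : Par q L C D h m t₀ S T) {t t' I J k u u' I' J' k' : ℕ}
    (ht : t ∈ Ioc t₀ (t₀ + S)) (ht' : t' ∈ Ioc t₀ (t₀ + S))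
    (hu : u ∈ Ioc t₀ (t₀ + S)) (hu' : u' ∈ Ioc t₀ (t₀ + S))
    (hJ : J < C ^ (T - t')) (hJ' : J' < C ^ (T - u')) (hk : k < D) (hk' : k' < D)
    (he : code C m t I J k (ty t₀ S t t') = code C m u I' J' k' (ty t₀ S u u')) :
    t = u ∧ t' = u' ∧ I = I' ∧ J = J' ∧ k = k' := by
  have hC := p.hCpos
  have b1 := mem_Ioc.1 ht
  have b2 := mem_Ioc.1 hu
  have hmt := p.hmt
  have hDC := p.hDC
  have hy := p.ty_lt' ht ht'
  have hy' := p.ty_lt' hu hu'
  have hJ1 := p.lt_pow ht ht' hJ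
  have hJ2 := p.lt_pow hu hu' hJ'
  have e1 := code_mod (C := C) (m := m) (t := t) (I := I) (J := J) (k := k) (by omega) (by omega) hy
  have e2 := code_mod (C := C) (m := m) (t := u) (I := I') (J := J') (k := k') (by omega)
    (by omega) hy'
  rw [he, e2] at e1
  obtain ⟨rfl, rfl⟩ := ty_inj hu hu' ht ht' e1
  have e3 := code_div (C := C) (m := m) (t := u) (I := I) (J := J) (k := k) hC (by omega)
    (by omega) hJ1 hy (by omega)
  have e4 := code_div (C := C) (m := m) (t := u) (I := I') (J := J') (k := k') hC (by omega)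
    (by omega) hJ2 hy (by omega)
  have e5 := code_J (C := C) (m := m) (t := u) (I := I) (J := J) (k := k) hC (by omega)
    (by omega) hJ1 hy
  have e6 := code_J (C := C) (m := m) (t := u) (I := I') (J := J') (k := k') hC (by omega)
    (by omega) hJ2 hy
  have e7 := code_div_child (C := C) (m := m) (t := u) (I := I) (J := J) (k := k) hC (by omega)
    (by omega) hJ1 hy
  have e8 := code_div_child (C := C) (m := m) (t := u) (I := I') (J := J') (k := k') hC (by omega)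
    (by omega) hJ2 hy
  rw [he] at e3 e5 e7
  have h1 : I = I' := e3.symm.trans e4
  subst h1
  refine ⟨rfl, rfl, rfl, e5.symm.trans e6, ?_⟩
  rw [e7] at e8
  omega

end

end Pool.Agent.Hhelper5.OrdR
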