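import Mathlib
import Pool.Agent.Hhelper5.OrdR.Code

set_option autoImplicit false

namespace Pool.Agent.Hhelper5.OrdR

open Finset

/-- `f` is injective below `D` -/
def InjB (D : ℕ) (f : ℕ → ℕ) : Prop := ∀ k < D, ∀ l < D, f k = f l → k = l

/-- no grid with all disjoint 2×2 minors containing a finer mark -/
def NoGrid (mk : ℕ → ℕ → ℕ → ℕ → Prop) (q L h : ℕ) : Prop :=
  ∀ x y : ℕ → ℕ, ∀ i < L, ∀ j < L, (∀ k < 2 * h, x k < q ^ L) → (∀ k < 2 * h, y k < q ^ L) →
    InjB (2 * h) (fun k => pre q L (i + 1) (x k)) → InjB (2 * h) (fun k => pre q L (j + 1) (y k)) →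
    ¬ ∀ u < h, ∀ v < h, ∃ k l i' j', (k = 2 * u ∨ k = 2 * u + 1) ∧ (l = 2 * v ∨ l = 2 * v + 1) ∧
      i < i' ∧ i' < L ∧ j < j' ∧ j' < L ∧ mk i' j' (pre q L i' (x k)) (pre q L j' (y l))

/-- the pattern put on a core -/
def pat (k l : ℕ) : Bool := decide (k % 2 = 1) && decide (l % 2 = 1)

/-- monotone digit data -/
def MonD (q M : ℕ) (g : ℕ → ℕ) : Prop :=
  (∀ a b, a ≤ b → b < M → g a ≤ g b) ∧ ∀ a < M, g a < q

/-- one of the many potential cores is hit -/
def Hits (mk : ℕ → ℕ → ℕ → ℕ → Prop) (bt : ℕ → ℕ → ℕ → ℕ → ℕ → ℕ → Bool)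
    (q L D EA EB i j : ℕ) : Prop :=
  ∀ (PA : ℕ → ℕ) (gA : ℕ → ℕ → ℕ) (PB : ℕ → ℕ) (gB : ℕ → ℕ → ℕ),
    (∀ I < EA, PA I < q ^ L ∧ MonD q (D * EB) (gA I)) →
    (∀ J < EB, PB J < q ^ L ∧ MonD q (D * EA) (gB J)) →
    ∀ W : Finset (ℕ × ℕ),
    (∀ PQ ∈ W, En mk q i j PQ.1 PQ.2 ∧ ∃ I < EA, ∃ J < EB, PA I = PQ.1 ∧ PB J = PQ.2 ∧
      InjB D (fun k => gA I (k * EB + J)) ∧ InjB D (fun l => gB J (l * EA + I))) →
    EA * EB ≤ 2 * (L * L) * (q * q) * #W →
    ∃ I < EA, ∃ J < EB, mk i j (PA I) (PB J) ∧ En mk q i j (PA I) (PB J) ∧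
      InjB D (fun k => gA I (k * EB + J)) ∧ InjB D (fun l => gB J (l * EA + I)) ∧
      ∀ k < D, ∀ l < D, bt i j (PA I) (PB J) (gA I (k * EB + J)) (gB J (l * EA + I)) = pat k l

section
variable {q L C D h m t₀ S T : ℕ} {π : ℕ → ℕ}

/-- digit function of a block -/
def digf (q L C m : ℕ) (π : ℕ → ℕ) (t i E y I : ℕ) (idx : ℕ) : ℕ :=
  dig q L i (π (code C m t I (idx % E) (idx / E) y))

open Classical in
/-- digit function of a block, or `0` if the block is not inside a box of level `i` -/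
noncomputable def digg (q L C m : ℕ) (π : ℕ → ℕ) (t i E y I : ℕ) (idx : ℕ) : ℕ :=
  if pre q L i (π (I * C ^ t)) = pre q L i (π ((I + 1) * C ^ t - 1)) then
    digf q L C m π t i E y I idx else 0

/-- facts about a code vertex -/
lemma Par.code_mem (p : Par q L C D h m t₀ S T) {t t' I J k : ℕ}
    (ht : t ∈ Ioc t₀ (t₀ + S)) (ht' : t' ∈ Ioc t₀ (t₀ + S)) {y : ℕ} (hy : y < C ^ m)
    (hI : I < C ^ (T - t)) (hJ : J < C ^ (T - t')) (hk : k < D) :
    code C m t I J k y < C ^ T ∧ I * C ^ t ≤ code C m t I J k y ∧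
      code C m t I J k y ≤ (I + 1) * C ^ t - 1 ∧
      (I * C + 2 * k) * C ^ (t - 1) ≤ code C m t I J k y ∧
      code C m t I J k y ≤ (I * C + 2 * k + 1) * C ^ (t - 1) - 1 := by
  have hC := p.hCpos
  have hJ1 := p.lt_pow ht ht' hJ
  have hmt := p.hmt
  have hDC := p.hDC
  have hT := p.hT
  rw [mem_Ioc] at ht ht'
  have h1 := code_lt (C := C) (m := m) (t := t) (T := T) (I := I) (J := J) (k := k) (y := y) hC
    (by omega) (by omega) (by omega) hJ1 hy (by omega) hI
  have h2 := code_div (C := C) (m := m) (t := t) (I := I) (J := J) (k := k) (y := y) hC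
    (by omega) (by omega) hJ1 hy (by omega)
  have h3 := code_div_child (C := C) (m := m) (t := t) (I := I) (J := J) (k := k) (y := y) hC
    (by omega) (by omega) hJ1 hy
  obtain ⟨h4, h5⟩ := mem_block (Nat.pow_pos hC) h2
  obtain ⟨h6, h7⟩ := mem_block (Nat.pow_pos hC) h3
  exact ⟨h1, h4, h5, h6, h7⟩

lemma Par.digf_mono (p : Par q L C D h m t₀ S T) (hπ : Emb q L C T π) {t t' I i y : ℕ}
    (ht : t ∈ Ioc t₀ (t₀ + S)) (ht' : t' ∈ Ioc t₀ (t₀ + S)) (hy : y < C ^ m)
    (hI : I < C ^ (T - t)) (hi : i < L)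
    (hc : pre q L i (π (I * C ^ t)) = pre q L i (π ((I + 1) * C ^ t - 1))) :
    MonD q (D * C ^ (T - t')) (digf q L C m π t i (C ^ (T - t')) y I) := by
  have hC := p.hCpos
  have hEpos : 0 < C ^ (T - t') := Nat.pow_pos hC
  set E := C ^ (T - t') with hE
  constructor
  · intro a b hab hb
    unfold digf
    have hJa : a % E < E := Nat.mod_lt _ hEpos
    have hJb : b % E < E := Nat.mod_lt _ hEpos
    have hkb : b / E < D := Nat.div_lt_of_lt_mul (by rwa [mul_comm] at hb)
    have hkab : a / E ≤ b / E := Nat.div_le_div_right hab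
    have hka : a / E < D := lt_of_le_of_lt hkab hkb
    obtain ⟨a1, a2, a3, a4, a5⟩ := p.code_mem ht ht' hy hI hJa hka
    obtain ⟨b1, b2, b3, b4, b5⟩ := p.code_mem ht ht' hy hI hJb hkb
    have htpos : 1 ≤ t := by have := (mem_Ioc.1 ht).1; omega
    have hle : code C m t I (a % E) (a / E) y ≤ code C m t I (b % E) (b / E) y := by
      rcases Nat.lt_or_ge (a / E) (b / E) with h1 | h1
      · have : (I * C + 2 * (a / E) + 1) * C ^ (t - 1) ≤ (I * C + 2 * (b / E)) * C ^ (t - 1) :=
          Nat.mul_le_mul_right _ (by omega)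
        omega
      · have h2 : a / E = b / E := le_antisymm hkab h1
        have h3 : a % E ≤ b % E := by
          have e1 := Nat.div_add_mod a E
          have e2 := Nat.div_add_mod b E
          rw [h2] at e1
          omega
        rw [h2]
        unfold code
        have := Nat.mul_le_mul_right (C ^ m) h3
        omega
    have e1 := pre_eq_dig (q := q) (x := π (code C m t I (a % E) (a / E) y)) hi
    have e2 := pre_eq_dig (q := q) (x := π (code C m t I (b % E) (b / E) y)) hi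
    have hT := p.hT
    rw [mem_Ioc] at ht
    rw [hπ.const_of_ends (by omega) hI hc a2 a3] at e1
    rw [hπ.const_of_ends (by omega) hI hc b2 b3] at e2
    have e3 := pre_mono (q := q) (L := L) (i := i + 1) (hπ.mono_le hle b1)
    omega
  · intro a _
    exact dig_lt p.hq

lemma Par.digg_mono (p : Par q L C D h m t₀ S T) (hπ : Emb q L C T π) {t t' I i y : ℕ}
    (ht : t ∈ Ioc t₀ (t₀ + S)) (ht' : t' ∈ Ioc t₀ (t₀ + S)) (hy : y < C ^ m)
    (hI : I < C ^ (T - t)) (hi : i < L) :
    MonD q (D * C ^ (T - t')) (digg q L C m π t i (C ^ (T - t')) y I) := by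
  by_cases hc : pre q L i (π (I * C ^ t)) = pre q L i (π ((I + 1) * C ^ t - 1))
  · have := p.digf_mono hπ ht ht' hy hI hi hc
    have e : digg q L C m π t i (C ^ (T - t')) y I = digf q L C m π t i (C ^ (T - t')) y I := by
      funext idx
      simp only [digg, hc, if_true]
    rw [e]; exact this
  · have e : digg q L C m π t i (C ^ (T - t')) y I = fun _ => 0 := by
      funext idx
      simp only [digg, hc, if_false]
    rw [e]
    exact ⟨fun _ _ _ _ => le_rfl, fun _ _ => p.hq⟩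

lemma idx_mod {E J k : ℕ} (hJ : J < E) : (k * E + J) % E = J := by
  rw [Nat.add_comm, Nat.add_mul_mod_self_right, Nat.mod_eq_of_lt hJ]

lemma idx_div {E J k : ℕ} (hJ : J < E) : (k * E + J) / E = k := by
  rw [Nat.add_comm, Nat.add_mul_div_right _ _ (by omega), Nat.div_eq_of_lt hJ, zero_add]

lemma Par.digg_eq (_p : Par q L C D h m t₀ S T) {t t' I J i k y : ℕ}
    (hJ : J < C ^ (T - t'))
    (hc : pre q L i (π (I * C ^ t)) = pre q L i (π ((I + 1) * C ^ t - 1))) :
    digg q L C m π t i (C ^ (T - t')) y I (k * C ^ (T - t') + J) =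
      dig q L i (π (code C m t I J k y)) := by
  simp only [digg, hc, if_true, digf, idx_mod hJ, idx_div hJ]

/-- a good block has injective digits -/
lemma Par.good_inj (p : Par q L C D h m t₀ S T) (hπ : Emb q L C T π) {t t' I J y : ℕ}
    (ht : t ∈ Ioc t₀ (t₀ + S)) (ht' : t' ∈ Ioc t₀ (t₀ + S)) (hy : y < C ^ m)
    (hI : I < C ^ (T - t)) (hJ : J < C ^ (T - t')) (hg : good q L C π t I) :
    InjB D (fun k => digg q L C m π t (lev q L C π t I) (C ^ (T - t')) y I
      (k * C ^ (T - t') + J)) := by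
  have hC := p.hCpos
  have hT := p.hT
  have hDC := p.hDC
  have ht0 := p.ht0
  have bt := mem_Ioc.1 ht
  have hspec := hπ.lev_spec (t := t) (I := I) (by omega) hI
  have hlt := hπ.lev_lt (t := t) (I := I) (by omega) (by omega) hI
  set i := lev q L C π t I with hi
  have key : ∀ k l, k < l → l < D →
      dig q L i (π (code C m t I J k y)) < dig q L i (π (code C m t I J l y)) := by
    intro k l hkl hl
    obtain ⟨a1, a2, a3, a4, a5⟩ := p.code_mem ht ht' hy hI hJ (by omega : k < D)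
    obtain ⟨b1, b2, b3, b4, b5⟩ := p.code_mem ht ht' hy hI hJ hl
    -- the separating child
    have hc : 2 * k + 1 < C := by omega
    have hchild := hg (2 * k + 1) hc
    have hIc : I * C + (2 * k + 1) < C ^ (T - (t - 1)) := by
      calc I * C + (2 * k + 1) < (I + 1) * C := by rw [add_mul]; omega
        _ ≤ C ^ (T - t) * C := Nat.mul_le_mul_right _ hI
        _ = C ^ (T - (t - 1)) := by rw [← pow_succ]; congr 1; omega
    have hst := hπ.lev_strict (t := t - 1) (I := I * C + (2 * k + 1)) (by omega) (by omega) hIc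
    rw [hchild, ← hi] at hst
    have h1 : pre q L (i + 1) (π (code C m t I J k y)) ≤
        pre q L (i + 1) (π ((I * C + (2 * k + 1)) * C ^ (t - 1))) := by
      apply pre_mono
      apply hπ.mono_le
      · have e : I * C + (2 * k + 1) = I * C + 2 * k + 1 := by ring
        rw [e]; omega
      · exact hπ.first_lt (by omega) hIc
    have h2 : pre q L (i + 1) (π ((I * C + (2 * k + 1) + 1) * C ^ (t - 1) - 1)) ≤
        pre q L (i + 1) (π (code C m t I J l y)) := by
      apply pre_mono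
      apply hπ.mono_le _ b1
      have e : I * C + (2 * k + 1) + 1 ≤ I * C + 2 * l := by omega
      have := Nat.mul_le_mul_right (C ^ (t - 1)) e
      omega
    have e1 := pre_eq_dig (q := q) (x := π (code C m t I J k y)) hlt
    have e2 := pre_eq_dig (q := q) (x := π (code C m t I J l y)) hlt
    rw [hπ.const_of_ends (by omega) hI hspec a2 a3] at e1
    rw [hπ.const_of_ends (by omega) hI hspec b2 b3] at e2
    omega
  intro k hk l hl hkl
  simp only at hkl
  rw [p.digg_eq hJ hspec, p.digg_eq hJ hspec] at hkl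
  by_contra hne
  rcases Nat.lt_or_gt_of_ne hne with h1 | h1
  · have := key k l h1 hl; omega
  · have := key l k h1 hk; omega

/-- if the digits are injective then the block is inside a box -/
lemma Par.ends_of_inj (p : Par q L C D h m t₀ S T) {t t' I J i y : ℕ}
    (hinj : InjB D (fun k => digg q L C m π t i (C ^ (T - t')) y I (k * C ^ (T - t') + J))) :
    pre q L i (π (I * C ^ t)) = pre q L i (π ((I + 1) * C ^ t - 1)) := by
  by_contra hc
  have h2 : 2 ≤ D := by have := p.hD; have := p.hh; omega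
  have := hinj 0 (by omega) 1 (by omega) (by simp only [digg, hc, if_false])
  omega

/-- **deterministic core theorem**: under the three pseudorandomness properties, no pair of
embeddings is monochromatic on the graph. -/
theorem Par.core (p : Par q L C D h m t₀ S T) {mk : ℕ → ℕ → ℕ → ℕ → Prop}
    {bt : ℕ → ℕ → ℕ → ℕ → ℕ → ℕ → Bool} (hFew : Few mk q L D) (hNo : NoGrid mk q L h)
    (hHit : ∀ t ∈ Ioc t₀ (t₀ + S), ∀ t' ∈ Ioc t₀ (t₀ + S), ∀ i < L, ∀ j < L,
      Hits mk bt q L D (C ^ (T - t)) (C ^ (T - t')) i j)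
    {τ : ℕ → ℕ} (hπ : Emb q L C T π) (hτ : Emb q L C T τ) (c : ZMod 2) :
    ∃ t t' I J k l, Adm C D t₀ S T t t' I J k l ∧
      FF mk bt q L (π (code C m t I J k (ty t₀ S t t'))) (τ (code C m t' J I l (ty t₀ S t t'))) ≠
        c := by
  classical
  by_contra hno
  push Not at hno
  have hT := p.hT
  have hmT : m ≤ T := by have := p.hmt; omega
  obtain ⟨t, ht, t', ht', i, hi, j, hj, hbig⟩ :=
    exists_core hπ hτ hT p.hS hmT p.hCL p.hDm p.hlong hFew
  have bt1 := mem_Ioc.1 ht
  have bt2 := mem_Ioc.1 ht'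
  set y := ty t₀ S t t' with hy
  have hyC : y < C ^ m := p.ty_lt' ht ht'
  set EA := C ^ (T - t) with hEA
  set EB := C ^ (T - t') with hEB
  have hub := useful_le_boxes hπ hτ mk (t := t) (t' := t') i j (by omega) (by omega) (by omega)
    (by omega)
  have hWbig : EA * EB ≤ 2 * (L * L) * (q * q) * #(boxes mk q L C T π τ t t' i j) := by
    calc EA * EB ≤ 2 * (L * L) * #(useful mk q L C T π τ t t' i j) := hbig
      _ ≤ 2 * (L * L) * (q * q * #(boxes mk q L C T π τ t t' i j)) := Nat.mul_le_mul_left _ hub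
      _ = _ := by ring
  obtain ⟨I, hI, J, hJ, hmk, hEn, hinjA, hinjB, hpat⟩ := hHit t ht t' ht' i hi j hj
    (fun I => pre q L i (π (I * C ^ t))) (digg q L C m π t i EB y)
    (fun J => pre q L j (τ (J * C ^ t'))) (digg q L C m τ t' j EA y)
    (by
      intro I hI
      refine ⟨?_, p.digg_mono hπ ht ht' hyC hI hi⟩
      exact lt_of_le_of_lt pre_le (hπ.lt _ (hπ.first_lt (by omega) hI)))
    (by
      intro J hJ
      refine ⟨?_, p.digg_mono hτ ht' ht hyC hJ hj⟩
      exact lt_of_le_of_lt pre_le (hτ.lt _ (hτ.first_lt (by omega) hJ)))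
    (boxes mk q L C T π τ t t' i j)
    (by
      intro PQ hPQ
      unfold boxes at hPQ
      rw [mem_image] at hPQ
      obtain ⟨⟨I, J⟩, hIJ, rfl⟩ := hPQ
      simp only [useful, mem_filter, mem_product, mem_range] at hIJ
      obtain ⟨⟨h1, h2⟩, h3, h4, h5, h6, h7⟩ := hIJ
      refine ⟨h7, I, h1, J, h2, rfl, rfl, ?_, ?_⟩
      · rw [← h5]
        exact p.good_inj hπ ht ht' hyC h1 h2 h3
      · rw [← h6]
        exact p.good_inj hτ ht' ht hyC h2 h1 h4)
    hWbig
  have hendA := p.ends_of_inj hinjA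
  have hendB := p.ends_of_inj hinjB
  -- the grid
  set X : ℕ → ℕ := fun k => π (code C m t I J k y) with hX
  set Y : ℕ → ℕ := fun l => τ (code C m t' J I l y) with hY
  have hgA : ∀ k, digg q L C m π t i EB y I (k * EB + J) = dig q L i (X k) := fun k =>
    p.digg_eq hJ hendA
  have hgB : ∀ l, digg q L C m τ t' j EA y J (l * EA + I) = dig q L j (Y l) := fun l =>
    p.digg_eq hI hendB
  have hXpre : ∀ k < D, pre q L i (X k) = pre q L i (π (I * C ^ t)) := by
    intro k hk
    obtain ⟨a1, a2, a3, a4, a5⟩ := p.code_mem ht ht' hyC hI hJ hk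
    exact hπ.const_of_ends (by omega) hI hendA a2 a3
  have hYpre : ∀ l < D, pre q L j (Y l) = pre q L j (τ (J * C ^ t')) := by
    intro l hl
    obtain ⟨a1, a2, a3, a4, a5⟩ := p.code_mem ht' ht hyC hJ hI hl
    exact hτ.const_of_ends (by omega) hJ hendB a2 a3
  have hact : ∀ k < D, ∀ l < D, act mk q L i j (X k) (Y l) := by
    intro k hk l hl
    unfold act
    rw [hXpre k hk, hYpre l hl]
    exact ⟨hmk, hEn⟩
  have htrm : ∀ k < D, ∀ l < D, trm mk bt q L i j (X k) (Y l) = if pat k l then 1 else 0 := by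
    intro k hk l hl
    unfold trm
    rw [if_pos (hact k hk l hl), hXpre k hk, hYpre l hl, ← hgA k, ← hgB l, hpat k hk l hl]
  have hF : ∀ k < D, ∀ l < D, FF mk bt q L (X k) (Y l) = c := by
    intro k hk l hl
    exact hno t t' I J k l ⟨ht, ht', hI, hJ, hk, hl⟩
  have hDh := p.hD
  apply hNo X Y i hi j hj
  · intro k hk
    exact hπ.lt _ (p.code_mem ht ht' hyC hI hJ (by omega)).1
  · intro k hk
    exact hτ.lt _ (p.code_mem ht' ht hyC hJ hI (by omega)).1
  · intro k hk l hl hkl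
    apply hinjA k (by omega) l (by omega)
    simp only at hkl ⊢
    rw [hgA, hgA, dig, dig, hkl]
  · intro k hk l hl hkl
    apply hinjB k (by omega) l (by omega)
    simp only at hkl ⊢
    rw [hgB, hgB, dig, dig, hkl]
  · intro u hu v hv
    have hk0 : 2 * u < D := by omega
    have hk1 : 2 * u + 1 < D := by omega
    have hl0 : 2 * v < D := by omega
    have hl1 : 2 * v + 1 < D := by omega
    obtain ⟨a, b, i', j', ha, hb, h1, h2, h3, h4, h5⟩ := minor hi hj
      (x := X (2 * u)) (x' := X (2 * u + 1)) (y := Y (2 * v)) (y' := Y (2 * v + 1))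
      (by rw [hXpre _ hk0, hXpre _ hk1]) (by rw [hYpre _ hl0, hYpre _ hl1])
      (hact _ hk0 _ hl0)
      (by
        rw [htrm _ hk0 _ hl0, htrm _ hk0 _ hl1, htrm _ hk1 _ hl0, htrm _ hk1 _ hl1]
        have e1 : (2 * u) % 2 = 0 := by omega
        have e2 : (2 * u + 1) % 2 = 1 := by omega
        have e3 : (2 * v) % 2 = 0 := by omega
        have e4 : (2 * v + 1) % 2 = 1 := by omega
        simp [pat, e2, e4])
      (by
        rw [hF _ hk0 _ hl0, hF _ hk0 _ hl1, hF _ hk1 _ hl0, hF _ hk1 _ hl1]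
        have := zmod2_add_self (c + c)
        rw [← this]; ring)
    rcases ha with rfl | rfl
    · rcases hb with rfl | rfl
      · exact ⟨2 * u, 2 * v, i', j', Or.inl rfl, Or.inl rfl, h1, h2, h3, h4, h5⟩
      · exact ⟨2 * u, 2 * v + 1, i', j', Or.inl rfl, Or.inr rfl, h1, h2, h3, h4, h5⟩
    · rcases hb with rfl | rfl
      · exact ⟨2 * u + 1, 2 * v, i', j', Or.inr rfl, Or.inl rfl, h1, h2, h3, h4, h5⟩
      · exact ⟨2 * u + 1, 2 * v + 1, i', j', Or.inr rfl, Or.inr rfl, h1, h2, h3, h4, h5⟩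

end

end Pool.Agent.Hhelper5.OrdR
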