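import Mathlib

set_option autoImplicit false

namespace Pool.Agent.Hhelper5.OrdR

open Finset

section marks
variable {B Y K : Type*} [Fintype B] [DecidableEq B] [Fintype Y] [DecidableEq Y] [Fintype K]

open Classical in
/-- prescribing membership in `M` at distinct coordinates -/
theorem card_prescribed (M : Finset Y) (w : ℕ) (hM : #M * w = Fintype.card Y) (β : K → B)
    (hβ : Function.Injective β) :
    #{ω : B → Y | ∀ k, ω (β k) ∈ M} * w ^ Fintype.card K = Fintype.card Y ^ Fintype.card B := by
  have h1 : ({ω : B → Y | ∀ k, ω (β k) ∈ M} : Finset (B → Y)) =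
      Fintype.piFinset (fun b => if b ∈ univ.image β then M else univ) := by
    ext ω
    simp only [mem_filter, mem_univ, true_and, Fintype.mem_piFinset]
    constructor
    · intro h b
      split_ifs with hb
      · obtain ⟨k, _, rfl⟩ := mem_image.1 hb
        exact h k
      · exact mem_univ _
    · intro h k
      have := h (β k)
      rwa [if_pos (mem_image_of_mem _ (mem_univ k))] at this
  have hcard : #(univ.image β) = Fintype.card K := by
    rw [card_image_of_injective _ hβ, card_univ]
  have h2 : w ^ Fintype.card K = ∏ b : B, (if b ∈ univ.image β then w else 1) := by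
    rw [Finset.prod_ite_mem, univ_inter, Finset.prod_const, hcard]
  rw [h1, Fintype.card_piFinset, h2, ← Finset.prod_mul_distrib]
  have h3 : ∀ b : B, #(if b ∈ univ.image β then M else univ) *
      (if b ∈ univ.image β then w else 1) = Fintype.card Y := by
    intro b
    split_ifs with hb
    · exact hM
    · rw [mul_one, card_univ]
  rw [Finset.prod_congr rfl (fun b _ => h3 b), Finset.prod_const, card_univ]

open Classical in
/-- union bound over a family of prescriptions -/
theorem card_union_prescribed (M : Finset Y) (w : ℕ) (hM : #M * w = Fintype.card Y)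
    {Θ : Type*} [Fintype Θ] (β : Θ → K → B) :
    #{ω : B → Y | ∃ θ, Function.Injective (β θ) ∧ ∀ k, ω (β θ k) ∈ M} * w ^ Fintype.card K ≤
      Fintype.card Θ * Fintype.card Y ^ Fintype.card B := by
  calc #{ω : B → Y | ∃ θ, Function.Injective (β θ) ∧ ∀ k, ω (β θ k) ∈ M} * w ^ Fintype.card K
      ≤ #((univ : Finset Θ).biUnion (fun θ =>
          {ω : B → Y | Function.Injective (β θ) ∧ ∀ k, ω (β θ k) ∈ M})) * w ^ Fintype.card K := by
        apply Nat.mul_le_mul_right
        apply Finset.card_le_card
        intro ω hω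
        simp only [mem_filter, mem_univ, true_and] at hω
        simp only [mem_biUnion, mem_filter, mem_univ, true_and]
        exact hω
    _ ≤ (∑ θ : Θ, #{ω : B → Y | Function.Injective (β θ) ∧ ∀ k, ω (β θ k) ∈ M}) *
          w ^ Fintype.card K := Nat.mul_le_mul_right _ Finset.card_biUnion_le
    _ = ∑ θ : Θ, #{ω : B → Y | Function.Injective (β θ) ∧ ∀ k, ω (β θ k) ∈ M} *
          w ^ Fintype.card K := by rw [Finset.sum_mul]
    _ ≤ ∑ θ : Θ, Fintype.card Y ^ Fintype.card B := by
        apply Finset.sum_le_sum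
        intro θ _
        by_cases hinj : Function.Injective (β θ)
        · simp only [hinj, true_and]
          exact (card_prescribed M w hM (β θ) hinj).le
        · simp [hinj]
    _ = _ := by rw [Finset.sum_const, card_univ, smul_eq_mul]

open Classical in
/-- the outcomes in which some injective prescription holds -/
noncomputable def badSet {Θ : Type*} (M : Finset Y) (β : Θ → K → B) : Finset (B → Y) :=
  {ω : B → Y | ∃ θ, Function.Injective (β θ) ∧ ∀ k, ω (β θ k) ∈ M}

omit [DecidableEq Y] [Fintype K] in
lemma mem_badSet {Θ : Type*} (M : Finset Y) (β : Θ → K → B) (ω : B → Y) :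
    ω ∈ badSet M β ↔ ∃ θ, Function.Injective (β θ) ∧ ∀ k, ω (β θ k) ∈ M := by
  simp [badSet]

theorem card_badSet (M : Finset Y) (w : ℕ) (hM : #M * w = Fintype.card Y)
    {Θ : Type*} [Fintype Θ] (β : Θ → K → B) :
    #(badSet M β) * w ^ Fintype.card K ≤
      Fintype.card Θ * Fintype.card Y ^ Fintype.card B := by
  unfold badSet
  convert card_union_prescribed M w hM β

open Classical in
/-- conditional count -/
theorem card_conditional (Λ : Finset B) (W : (B → Y) → Finset B) (H : B → Finset Y) (w' : ℕ)
    (hW : ∀ ω ω' : B → Y, (∀ b, b ∉ Λ → ω b = ω' b) → W ω = W ω')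
    (hWΛ : ∀ ω, W ω ⊆ Λ) (hH : ∀ ω, ∀ b ∈ W ω, (H b).Nonempty) :
    #{ω : B → Y | w' ≤ #(W ω) ∧ ∀ b ∈ W ω, ω b ∉ H b} * Fintype.card Y ^ w' ≤
      (Fintype.card Y - 1) ^ w' * Fintype.card Y ^ Fintype.card B := by
  rcases isEmpty_or_nonempty (B → Y) with hemp | ⟨⟨ω₁⟩⟩
  · have : ({ω : B → Y | w' ≤ #(W ω) ∧ ∀ b ∈ W ω, ω b ∉ H b} : Finset (B → Y)) = ∅ := by
      ext ω; exact (hemp.false ω).elim
    rw [this]; simp
  set A : Finset (B → Y) := {ω : B → Y | w' ≤ #(W ω) ∧ ∀ b ∈ W ω, ω b ∉ H b} with hA
  let r : (B → Y) → (B → Y) := fun ω b => if b ∈ Λ then ω₁ b else ω b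
  have hfA := Finset.card_eq_sum_card_fiberwise (s := A) (t := univ.image r) (f := r)
    (fun ω _ => mem_coe.2 (mem_image_of_mem _ (mem_univ ω)))
  have hfU := Finset.card_eq_sum_card_fiberwise (s := (univ : Finset (B → Y)))
    (t := univ.image r) (f := r) (fun ω _ => mem_coe.2 (mem_image_of_mem _ (mem_univ ω)))
  have hcU : #(univ : Finset (B → Y)) = Fintype.card Y ^ Fintype.card B := by
    rw [card_univ, Fintype.card_fun]
  rw [← hcU, hfA, hfU, Finset.sum_mul, Finset.mul_sum]
  apply Finset.sum_le_sum
  intro ρ hρ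
  rcases Finset.eq_empty_or_nonempty {ω ∈ A | r ω = ρ} with he | ⟨ω₀, hω₀⟩
  · rw [he]; simp
  rw [mem_filter] at hω₀
  obtain ⟨hω₀A, hrω₀⟩ := hω₀
  have hω₀A' := (mem_filter.1 hω₀A).2
  set W₀ := W ω₀ with hW₀
  have hW₀Λ : W₀ ⊆ Λ := hWΛ ω₀
  have hout : ∀ ω, r ω = ρ → ∀ b, b ∉ Λ → ω b = ω₀ b := by
    intro ω hω b hb
    have h1 := congrFun (hω.trans hrω₀.symm) b
    simpa only [r, if_neg hb] using h1
  have hsame : ∀ ω, r ω = ρ → W ω = W₀ := fun ω hω => hW ω ω₀ (hout ω hω)
  -- the fibre of A
  have h1 : #{ω ∈ A | r ω = ρ} ≤ ∏ b : B,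
      (if b ∈ W₀ then Fintype.card Y - 1 else if b ∈ Λ then Fintype.card Y else 1) := by
    calc #{ω ∈ A | r ω = ρ} ≤ #(Fintype.piFinset (fun b : B =>
          if b ∈ W₀ then univ \ H b else if b ∈ Λ then univ else {ω₀ b})) := by
          apply Finset.card_le_card
          intro ω hω
          rw [mem_filter] at hω
          obtain ⟨hωA, hω⟩ := hω
          have hωA' := (mem_filter.1 hωA).2
          rw [Fintype.mem_piFinset]
          intro b
          split_ifs with hb1 hb2
          · rw [mem_sdiff]
            refine ⟨mem_univ _, hωA'.2 b ?_⟩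
            rw [hsame ω hω]; exact hb1
          · exact mem_univ _
          · rw [mem_singleton]; exact hout ω hω b hb2
      _ = ∏ b : B, #(if b ∈ W₀ then univ \ H b else if b ∈ Λ then univ else {ω₀ b}) :=
          Fintype.card_piFinset _
      _ ≤ _ := by
          apply Finset.prod_le_prod (fun b _ => Nat.zero_le _)
          intro b _
          split_ifs with hb1 hb2
          · rw [Finset.card_sdiff_of_subset (subset_univ _), card_univ]
            have := Finset.card_pos.2 (hH ω₀ b hb1)
            omega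
          · rw [card_univ]
          · rw [card_singleton]
  have h2 : #{ω ∈ (univ : Finset (B → Y)) | r ω = ρ} =
      ∏ b : B, (if b ∈ Λ then Fintype.card Y else 1) := by
    have e : ({ω ∈ (univ : Finset (B → Y)) | r ω = ρ}) =
        Fintype.piFinset (fun b : B => if b ∈ Λ then univ else {ω₀ b}) := by
      ext ω
      rw [mem_filter, Fintype.mem_piFinset]
      constructor
      · rintro ⟨_, hω⟩ b
        split_ifs with hb
        · exact mem_univ _
        · rw [mem_singleton]; exact hout ω hω b hb
      · intro h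
        refine ⟨mem_univ _, ?_⟩
        rw [← hrω₀]
        funext b
        simp only [r]
        split_ifs with hb
        · rfl
        · have := h b
          rw [if_neg hb, mem_singleton] at this
          exact this
    rw [e, Fintype.card_piFinset]
    apply Finset.prod_congr rfl
    intro b _
    split_ifs
    · exact card_univ
    · exact card_singleton _
  have hYpos : 0 < Fintype.card Y ∨ IsEmpty B := by
    rcases isEmpty_or_nonempty B with h | ⟨⟨b⟩⟩
    · exact Or.inr h
    · left; exact Fintype.card_pos_iff.2 ⟨ω₁ b⟩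
  have hpow : ∀ z : ℕ, z ^ #W₀ = ∏ b : B, (if b ∈ W₀ then z else 1) := by
    intro z
    rw [Finset.prod_ite_mem, univ_inter, Finset.prod_const]
  have h3 : #{ω ∈ A | r ω = ρ} * Fintype.card Y ^ #W₀ ≤
      (Fintype.card Y - 1) ^ #W₀ * #{ω ∈ (univ : Finset (B → Y)) | r ω = ρ} := by
    calc #{ω ∈ A | r ω = ρ} * Fintype.card Y ^ #W₀
        ≤ (∏ b : B, (if b ∈ W₀ then Fintype.card Y - 1 else
            if b ∈ Λ then Fintype.card Y else 1)) * Fintype.card Y ^ #W₀ :=
          Nat.mul_le_mul_right _ h1
      _ = (Fintype.card Y - 1) ^ #W₀ * #{ω ∈ (univ : Finset (B → Y)) | r ω = ρ} := by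
          rw [h2, hpow, hpow, ← Finset.prod_mul_distrib, ← Finset.prod_mul_distrib]
          apply Finset.prod_congr rfl
          intro b _
          by_cases hb1 : b ∈ W₀
          · have hb2 := hW₀Λ hb1
            simp [hb1, hb2]
          · simp [hb1]
  obtain ⟨hw', _⟩ := hω₀A'
  have hsplit : #W₀ = w' + (#W₀ - w') := by omega
  rcases hYpos with hYpos | hB
  · have hpos : 0 < Fintype.card Y ^ (#W₀ - w') := Nat.pow_pos hYpos
    apply Nat.le_of_mul_le_mul_right _ hpos
    calc #{ω ∈ A | r ω = ρ} * Fintype.card Y ^ w' * Fintype.card Y ^ (#W₀ - w')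
        = #{ω ∈ A | r ω = ρ} * Fintype.card Y ^ #W₀ := by
          rw [mul_assoc, ← pow_add, ← hsplit]
      _ ≤ (Fintype.card Y - 1) ^ #W₀ * #{ω ∈ (univ : Finset (B → Y)) | r ω = ρ} := h3
      _ = (Fintype.card Y - 1) ^ w' * (Fintype.card Y - 1) ^ (#W₀ - w') *
            #{ω ∈ (univ : Finset (B → Y)) | r ω = ρ} := by
          rw [← pow_add, ← hsplit]
      _ ≤ (Fintype.card Y - 1) ^ w' * Fintype.card Y ^ (#W₀ - w') *
            #{ω ∈ (univ : Finset (B → Y)) | r ω = ρ} := by
          apply Nat.mul_le_mul_right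
          apply Nat.mul_le_mul_left
          exact Nat.pow_le_pow_left (Nat.sub_le _ _) _
      _ = _ := by ring
  · have h0 : W₀ = ∅ := Finset.eq_empty_of_isEmpty _
    have h00 : w' = 0 := by rw [h0] at hw'; simpa using hw'
    rw [h0] at h3
    rw [h00]
    simpa using h3

end marks

/-- number of monotone functions -/
theorem card_monotone (M q : ℕ) :
    Nat.card {g : Fin M → Fin q // Monotone g} ≤ (M + 1) ^ q := by
  classical
  let F : {g : Fin M → Fin q // Monotone g} → (Fin q → Fin (M + 1)) := fun g v =>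
    ⟨#{a : Fin M | g.1 a ≤ v}, by
      have := Finset.card_le_univ ({a : Fin M | g.1 a ≤ v} : Finset (Fin M))
      rw [Fintype.card_fin] at this
      omega⟩
  have key : ∀ (g : {g : Fin M → Fin q // Monotone g}) (v : Fin q) (a : Fin M),
      g.1 a ≤ v ↔ a.val < (F g v).val := by
    intro g v a
    constructor
    · intro h
      have hsub : Finset.Iic a ⊆ ({a : Fin M | g.1 a ≤ v} : Finset (Fin M)) := by
        intro b hb
        rw [mem_Iic] at hb
        simp only [mem_filter, mem_univ, true_and]
        exact (g.2 hb).trans h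
      have := Finset.card_le_card hsub
      rw [Fin.card_Iic] at this
      exact this
    · intro h
      by_contra hc
      push Not at hc
      have hsub : ({a : Fin M | g.1 a ≤ v} : Finset (Fin M)) ⊆ Finset.Iio a := by
        intro b hb
        simp only [mem_filter, mem_univ, true_and] at hb
        rw [mem_Iio]
        by_contra hba
        push Not at hba
        exact absurd (lt_of_lt_of_le hc (g.2 hba)) (not_lt.2 hb)
      have := Finset.card_le_card hsub
      rw [Fin.card_Iio] at this
      exact absurd h (not_lt.2 this)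
  have hinj : Function.Injective F := by
    intro g g' h
    apply Subtype.ext
    funext a
    apply le_antisymm
    · rw [key g, h, ← key g']
    · rw [key g', ← h, ← key g]
  calc Nat.card {g : Fin M → Fin q // Monotone g} ≤ Nat.card (Fin q → Fin (M + 1)) :=
        Nat.card_le_card_of_injective F hinj
    _ = (M + 1) ^ q := by simp

end Pool.Agent.Hhelper5.OrdR
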