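import Mathlib
import Pool.Agent.Hhelper5.OrdR.Core

set_option autoImplicit false

namespace Pool.Agent.Hhelper5.OrdR

open Finset

/-- general injectivity of codes -/
lemma code_inj_gen {C m t u I I' J J' k k' y y' : ℕ} (hC : 0 < C) (ht : m + 1 ≤ t)
    (hu : m + 1 ≤ u) (hy : y < C ^ m) (hy' : y' < C ^ m) (hJ : J < C ^ (t - 1 - m))
    (hJ' : J' < C ^ (u - 1 - m)) (hk : 2 * k < C) (hk' : 2 * k' < C) (htu : y = y' → t = u)
    (he : code C m t I J k y = code C m u I' J' k' y') :
    y = y' ∧ t = u ∧ I = I' ∧ J = J' ∧ k = k' := by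
  have e1 := code_mod (C := C) (m := m) (t := t) (I := I) (J := J) (k := k) (by omega) (by omega) hy
  have e2 := code_mod (C := C) (m := m) (t := u) (I := I') (J := J') (k := k') (by omega)
    (by omega) hy'
  rw [he, e2] at e1
  subst e1
  have htu' := htu rfl
  subst htu'
  have e3 := code_div (C := C) (m := m) (t := t) (I := I) (J := J) (k := k) hC (by omega)
    (by omega) hJ hy hk
  have e4 := code_div (C := C) (m := m) (t := t) (I := I') (J := J') (k := k') hC (by omega)
    (by omega) hJ' hy hk'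
  have e5 := code_J (C := C) (m := m) (t := t) (I := I) (J := J) (k := k) hC (by omega)
    (by omega) hJ hy
  have e6 := code_J (C := C) (m := m) (t := t) (I := I') (J := J') (k := k') hC (by omega)
    (by omega) hJ' hy
  have e7 := code_div_child (C := C) (m := m) (t := t) (I := I) (J := J) (k := k) hC (by omega)
    (by omega) hJ hy
  have e8 := code_div_child (C := C) (m := m) (t := t) (I := I') (J := J') (k := k') hC (by omega)
    (by omega) hJ' hy
  rw [he] at e3 e5 e7
  have h1 : I = I' := e3.symm.trans e4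
  subst h1
  refine ⟨rfl, rfl, rfl, e5.symm.trans e6, ?_⟩
  rw [e7] at e8
  omega

/-- edge relation on natural numbers -/
def Rel (C D m t₀ S T u v : ℕ) : Prop :=
  ∃ t t' I J k l, Adm C D t₀ S T t t' I J k l ∧ u = code C m t I J k (ty t₀ S t t') ∧
    v = C ^ T + code C m t' J I l (ty t₀ S t t')

section
variable {q L C D h m t₀ S T : ℕ}

lemma Par.rel_lt (p : Par q L C D h m t₀ S T) {u v : ℕ} (hr : Rel C D m t₀ S T u v) :
    u < C ^ T ∧ C ^ T ≤ v ∧ v < 2 * C ^ T := by
  obtain ⟨t, t', I, J, k, l, ha, rfl, rfl⟩ := hr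
  have hy := p.ty_lt' ha.ht ha.ht'
  have h1 := (p.code_mem ha.ht ha.ht' hy ha.hI ha.hJ ha.hk).1
  have h2 := (p.code_mem ha.ht' ha.ht hy ha.hJ ha.hI ha.hl).1
  refine ⟨h1, by omega, by omega⟩

/-- the ordered graph on `Fin n` -/
def GG (C D m t₀ S T n : ℕ) (hlt : ∀ u v, Rel C D m t₀ S T u v → u < v) : SimpleGraph (Fin n) where
  Adj a b := Rel C D m t₀ S T a.val b.val ∨ Rel C D m t₀ S T b.val a.val
  symm := ⟨fun a b h => h.symm⟩
  loopless := ⟨fun a h => by
    rcases h with h | h <;> exact absurd (hlt _ _ h) (lt_irrefl _)⟩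

lemma Par.right_nbrs (p : Par q L C D h m t₀ S T) (u : ℕ) :
    ∃ s : Finset ℕ, #s ≤ D ∧ ∀ v, Rel C D m t₀ S T u v → v ∈ s := by
  classical
  by_cases hex : ∃ v, Rel C D m t₀ S T u v
  · obtain ⟨v₀, t, t', I, J, k, l, ha, hu, hv⟩ := hex
    refine ⟨(range D).image (fun l => C ^ T + code C m t' J I l (ty t₀ S t t')), ?_, ?_⟩
    · exact (Finset.card_image_le).trans (by rw [card_range])
    · rintro v ⟨t2, t2', I2, J2, k2, l2, ha2, hu2, hv2⟩
      have hb := mem_Ioc.1 ha.ht
      have hb2 := mem_Ioc.1 ha2.ht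
      have hmt := p.hmt
      have hDC := p.hDC
      have hk := ha.hk
      have hk2 := ha2.hk
      obtain ⟨e1, e2, e3, e4, e5⟩ := code_inj_gen p.hCpos (by omega) (by omega)
        (p.ty_lt' ha.ht ha.ht') (p.ty_lt' ha2.ht ha2.ht') (p.lt_pow ha.ht ha.ht' ha.hJ)
        (p.lt_pow ha2.ht ha2.ht' ha2.hJ) (by omega) (by omega)
        (fun h => (ty_inj ha.ht ha.ht' ha2.ht ha2.ht' h).1) (hu.symm.trans hu2)
      have e6 := (ty_inj ha.ht ha.ht' ha2.ht ha2.ht' e1).2
      subst e2; subst e3; subst e4; subst e5; subst e6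
      rw [mem_image]
      exact ⟨l2, mem_range.2 ha2.hl, hv2.symm⟩
  · push Not at hex
    exact ⟨∅, by simp, fun v hv => (hex v hv).elim⟩

lemma Par.left_nbrs (p : Par q L C D h m t₀ S T) (v : ℕ) :
    ∃ s : Finset ℕ, #s ≤ D ∧ ∀ u, Rel C D m t₀ S T u v → u ∈ s := by
  classical
  by_cases hex : ∃ u, Rel C D m t₀ S T u v
  · obtain ⟨u₀, t, t', I, J, k, l, ha, hu, hv⟩ := hex
    refine ⟨(range D).image (fun k => code C m t I J k (ty t₀ S t t')), ?_, ?_⟩
    · exact (Finset.card_image_le).trans (by rw [card_range])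
    · rintro u ⟨t2, t2', I2, J2, k2, l2, ha2, hu2, hv2⟩
      have hb := mem_Ioc.1 ha.ht'
      have hb2 := mem_Ioc.1 ha2.ht'
      have hmt := p.hmt
      have hDC := p.hDC
      have hl := ha.hl
      have hl2 := ha2.hl
      obtain ⟨e1, e2, e3, e4, e5⟩ := code_inj_gen (C := C) (m := m) (t := t') (u := t2')
        (I := J) (I' := J2) (J := I) (J' := I2) (k := l) (k' := l2) p.hCpos (by omega) (by omega)
        (p.ty_lt' ha.ht ha.ht') (p.ty_lt' ha2.ht ha2.ht') (p.lt_pow ha.ht' ha.ht ha.hI)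
        (p.lt_pow ha2.ht' ha2.ht ha2.hI) (by omega) (by omega)
        (fun h => (ty_inj ha.ht ha.ht' ha2.ht ha2.ht' h).2) (by omega)
      have e6 := (ty_inj ha.ht ha.ht' ha2.ht ha2.ht' e1).1
      subst e2; subst e3; subst e4; subst e5; subst e6
      rw [mem_image]
      exact ⟨k2, mem_range.2 ha2.hk, hu2.symm⟩
  · push Not at hex
    exact ⟨∅, by simp, fun v hv => (hex v hv).elim⟩

lemma ncard_le_of_val {n : ℕ} (A : Set (Fin n)) (s : Finset ℕ) (h : ∀ a ∈ A, a.val ∈ s) :
    A.ncard ≤ #s := by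
  classical
  rw [← Set.ncard_image_of_injective A Fin.val_injective, ← Set.ncard_coe_finset s]
  apply Set.ncard_le_ncard _ (Finset.finite_toSet s)
  rintro _ ⟨a, ha, rfl⟩
  exact h a ha

lemma Par.rel_lt' (p : Par q L C D h m t₀ S T) :
    ∀ u v, Rel C D m t₀ S T u v → u < v := by
  intro u v hr
  have := p.rel_lt hr
  omega

/-- the combinatorial output: for all `n ≥ 2 C^T` there is an ordered graph such that every
host of size at most `q^L` has a bad colouring -/
theorem Par.final (p : Par q L C D h m t₀ S T) {mk : ℕ → ℕ → ℕ → ℕ → Prop}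
    {bt : ℕ → ℕ → ℕ → ℕ → ℕ → ℕ → Bool} (hFew : Few mk q L D) (hNo : NoGrid mk q L h)
    (hHit : ∀ t ∈ Ioc t₀ (t₀ + S), ∀ t' ∈ Ioc t₀ (t₀ + S), ∀ i < L, ∀ j < L,
      Hits mk bt q L D (C ^ (T - t)) (C ^ (T - t')) i j)
    {n : ℕ} (hn : 2 * C ^ T ≤ n) :
    ∃ G : SimpleGraph (Fin n),
        (∀ v, (G.neighborSet v).ncard ≤ D) ∧
        (∃ u v, G.Adj u v) ∧
        (∃ k : ℕ, ∀ u v, G.Adj u v → (u.val < k ↔ k ≤ v.val)) ∧
        ∀ N : ℕ, N ≤ q ^ L →
          ∃ f : Fin N → Fin N → Bool, ∀ φ : Fin n → Fin N, StrictMono φ → ∀ b : Bool,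
            ∃ u v, G.Adj u v ∧ u < v ∧ f (φ u) (φ v) ≠ b := by
  classical
  refine ⟨GG C D m t₀ S T n p.rel_lt', ?_, ?_, ⟨C ^ T, ?_⟩, ?_⟩
  · intro v
    rcases Nat.lt_or_ge v.val (C ^ T) with hv | hv
    · obtain ⟨s, hs, hs2⟩ := p.right_nbrs v.val
      refine (ncard_le_of_val _ s ?_).trans hs
      intro a ha
      rcases ha with ha | ha
      · exact hs2 _ ha
      · have := (p.rel_lt ha).2.1
        omega
    · obtain ⟨s, hs, hs2⟩ := p.left_nbrs v.val
      refine (ncard_le_of_val _ s ?_).trans hs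
      intro a ha
      rcases ha with ha | ha
      · have := (p.rel_lt ha).1
        omega
      · exact hs2 _ ha
  · have hD : 0 < D := by have := p.hD; have := p.hh; omega
    have hS := p.hS
    have hT := p.hT
    have hpow : ∀ e, 0 < C ^ e := fun e => Nat.pow_pos p.hCpos
    have hadm : Adm C D t₀ S T (t₀ + 1) (t₀ + 1) 0 0 0 0 :=
      ⟨mem_Ioc.2 ⟨by omega, by omega⟩, mem_Ioc.2 ⟨by omega, by omega⟩, hpow _, hpow _, hD, hD⟩
    have hrel : Rel C D m t₀ S T (code C m (t₀ + 1) 0 0 0 (ty t₀ S (t₀ + 1) (t₀ + 1)))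
      (C ^ T + code C m (t₀ + 1) 0 0 0 (ty t₀ S (t₀ + 1) (t₀ + 1))) :=
      ⟨_, _, _, _, _, _, hadm, rfl, rfl⟩
    have hb := p.rel_lt hrel
    have hu : code C m (t₀ + 1) 0 0 0 (ty t₀ S (t₀ + 1) (t₀ + 1)) < n := by omega
    have hv : C ^ T + code C m (t₀ + 1) 0 0 0 (ty t₀ S (t₀ + 1) (t₀ + 1)) < n := by omega
    exact ⟨⟨_, hu⟩, ⟨_, hv⟩, Or.inl hrel⟩
  · intro u v huv
    rcases huv with huv | huv
    · have := p.rel_lt huv
      constructor
      · intro _; exact this.2.1
      · intro _; exact this.1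
    · have := p.rel_lt huv
      constructor
      · intro h; omega
      · intro h; omega
  · intro N hN
    refine ⟨fun x y => decide (FF mk bt q L x.val y.val = 0), ?_⟩
    intro φ hφ b
    let π : ℕ → ℕ := fun x => if hx : x < n then (φ ⟨x, hx⟩).val else 0
    let τ : ℕ → ℕ := fun x => if hx : C ^ T + x < n then (φ ⟨C ^ T + x, hx⟩).val else 0
    have hπ : Emb q L C T π := by
      refine ⟨p.hC2, p.hq, ?_, ?_⟩
      · intro x y hxy hy
        have hx' : x < n := by omega
        have hy' : y < n := by omega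
        simp only [π, dif_pos hx', dif_pos hy']
        exact hφ (Fin.mk_lt_mk.2 hxy)
      · intro x hx
        have hx' : x < n := by omega
        simp only [π, dif_pos hx']
        exact lt_of_lt_of_le (φ ⟨x, hx'⟩).isLt hN
    have hτ : Emb q L C T τ := by
      refine ⟨p.hC2, p.hq, ?_, ?_⟩
      · intro x y hxy hy
        have hx' : C ^ T + x < n := by omega
        have hy' : C ^ T + y < n := by omega
        simp only [τ, dif_pos hx', dif_pos hy']
        exact hφ (Fin.mk_lt_mk.2 (by omega))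
      · intro x hx
        have hx' : C ^ T + x < n := by omega
        simp only [τ, dif_pos hx']
        exact lt_of_lt_of_le (φ ⟨C ^ T + x, hx'⟩).isLt hN
    obtain ⟨t, t', I, J, k, l, ha, hne⟩ := p.core hFew hNo hHit hπ hτ (if b then 0 else 1)
    have hrel : Rel C D m t₀ S T (code C m t I J k (ty t₀ S t t'))
      (C ^ T + code C m t' J I l (ty t₀ S t t')) := ⟨t, t', I, J, k, l, ha, rfl, rfl⟩
    have hb := p.rel_lt hrel
    have hu : code C m t I J k (ty t₀ S t t') < n := by omega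
    have hv : C ^ T + code C m t' J I l (ty t₀ S t t') < n := by omega
    refine ⟨⟨_, hu⟩, ⟨_, hv⟩, Or.inl hrel, Fin.mk_lt_mk.2 (by omega), ?_⟩
    simp only [π, τ, dif_pos hu, dif_pos hv] at hne
    cases b with
    | true =>
      simp only [if_true] at hne
      simpa using hne
    | false =>
      simp only [Bool.false_eq_true, if_false] at hne
      simp only [ne_eq, decide_eq_false_iff_not, not_not]
      generalize FF mk bt q L (φ ⟨_, hu⟩).val (φ ⟨_, hv⟩).val = z at *
      revert z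
      decide

end

end Pool.Agent.Hhelper5.OrdR
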