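import Mathlib
import Pool.Agent.Hhelper5.OrdR.Core
import Pool.Agent.Hhelper5.OrdR.Count

set_option autoImplicit false

namespace Pool.Agent.Hhelper5.OrdR

open Finset

abbrev Box (q L : ℕ) := Fin L × Fin L × Fin (q ^ L) × Fin (q ^ L)
abbrev Val (q w : ℕ) := Fin w × (Fin q → Fin q → Bool)

section
variable {q L w : ℕ}

/-- the mark relation of an outcome -/
def mkO (ω : Box q L → Val q w) (i j P Q : ℕ) : Prop :=
  ∃ (hi : i < L) (hj : j < L) (hP : P < q ^ L) (hQ : Q < q ^ L),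
    (ω (⟨i, hi⟩, ⟨j, hj⟩, ⟨P, hP⟩, ⟨Q, hQ⟩)).1.val = 0

/-- the bits of a value -/
def bitv (y : Val q w) (d e : ℕ) : Bool := if h : d < q ∧ e < q then y.2 ⟨d, h.1⟩ ⟨e, h.2⟩ else false

/-- the bits of an outcome -/
def btO (ω : Box q L → Val q w) (i j P Q d e : ℕ) : Bool :=
  if h : i < L ∧ j < L ∧ P < q ^ L ∧ Q < q ^ L then
    bitv (ω (⟨i, h.1⟩, ⟨j, h.2.1⟩, ⟨P, h.2.2.1⟩, ⟨Q, h.2.2.2⟩)) d e else false

/-- the marked values -/
def MV (q w : ℕ) : Finset (Val q w) := {y | y.1.val = 0}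

lemma mem_MV (y : Val q w) : y ∈ MV q w ↔ y.1.val = 0 := by simp [MV]

lemma card_MV (hw : 0 < w) : #(MV q w) * w = Fintype.card (Val q w) := by
  have h : MV q w = ({⟨0, hw⟩} : Finset (Fin w)) ×ˢ (univ : Finset (Fin q → Fin q → Bool)) := by
    ext y
    rw [mem_MV, mem_product, mem_singleton]
    constructor
    · intro h; exact ⟨Fin.ext h, mem_univ _⟩
    · rintro ⟨h, _⟩; rw [h]
  rw [h, card_product, card_singleton, one_mul, Fintype.card_prod, Fintype.card_fin, card_univ]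
  ring

lemma card_Val : Fintype.card (Val q w) = w * 2 ^ (q * q) := by
  rw [Fintype.card_prod, Fintype.card_fin, Fintype.card_fun, Fintype.card_fun, Fintype.card_bool,
    Fintype.card_fin, ← pow_mul]

/-- family for `Few` -/
def beta0 (D : ℕ) (θ : Fin (q ^ L) × Fin (q ^ L) × (Fin (D + 1) → Fin L) × (Fin (D + 1) → Fin L))
    (k : Fin (D + 1)) : Box q L :=
  (θ.2.2.1 k, θ.2.2.2 k, ⟨pre q L (θ.2.2.1 k).val θ.1.val, lt_of_le_of_lt pre_le θ.1.isLt⟩,
    ⟨pre q L (θ.2.2.2 k).val θ.2.1.val, lt_of_le_of_lt pre_le θ.2.1.isLt⟩)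

lemma few_of_not (D : ℕ) (ω : Box q L → Val q w)
    (h : ¬ ∃ θ, Function.Injective (beta0 (q := q) (L := L) D θ) ∧ ∀ k, ω (beta0 D θ k) ∈ MV q w) :
    Few (mkO ω) q L D := by
  classical
  intro x y hx hy
  constructor
  · intro s hs
    by_contra hc
    push Not at hc
    obtain ⟨s', hs', hcard⟩ := Finset.exists_subset_card_eq (s := s) (n := D + 1) hc
    have hs2 : ∀ k : Fin (D + 1), (s'.orderEmbOfFin hcard k) < L ∧ ∃ j < L,
        mkO ω (s'.orderEmbOfFin hcard k) j (pre q L (s'.orderEmbOfFin hcard k) x) (pre q L j y) :=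
      fun k => hs _ (hs' (Finset.orderEmbOfFin_mem s' hcard k))
    choose h1 j hj hmk using hs2
    apply h
    refine ⟨(⟨x, hx⟩, ⟨y, hy⟩, fun k => ⟨s'.orderEmbOfFin hcard k, h1 k⟩, fun k => ⟨j k, hj k⟩),
      ?_, ?_⟩
    · intro k k' hkk
      have := congrArg (fun b : Box q L => b.1.val) hkk
      simp only [beta0] at this
      exact (s'.orderEmbOfFin hcard).injective this
    · intro k
      rw [mem_MV]
      obtain ⟨_, _, _, _, h5⟩ := hmk k
      exact h5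
  · intro s hs
    by_contra hc
    push Not at hc
    obtain ⟨s', hs', hcard⟩ := Finset.exists_subset_card_eq (s := s) (n := D + 1) hc
    have hs2 : ∀ k : Fin (D + 1), (s'.orderEmbOfFin hcard k) < L ∧ ∃ i < L,
        mkO ω i (s'.orderEmbOfFin hcard k) (pre q L i x) (pre q L (s'.orderEmbOfFin hcard k) y) :=
      fun k => hs _ (hs' (Finset.orderEmbOfFin_mem s' hcard k))
    choose h1 j hj hmk using hs2
    apply h
    refine ⟨(⟨x, hx⟩, ⟨y, hy⟩, fun k => ⟨j k, hj k⟩, fun k => ⟨s'.orderEmbOfFin hcard k, h1 k⟩),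
      ?_, ?_⟩
    · intro k k' hkk
      have := congrArg (fun b : Box q L => b.2.1.val) hkk
      simp only [beta0] at this
      exact (s'.orderEmbOfFin hcard).injective this
    · intro k
      rw [mem_MV]
      obtain ⟨_, _, _, _, h5⟩ := hmk k
      exact h5

/-- index type for `NoGrid` -/
abbrev Th1 (q L h : ℕ) := (Fin (2 * h) → Fin (q ^ L)) × (Fin (2 * h) → Fin (q ^ L)) ×
  (Fin h × Fin h → Bool × Bool × Fin L × Fin L)

/-- row index from minor index and bit -/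
def rowi {h : ℕ} (u : Fin h) (α : Bool) : Fin (2 * h) :=
  ⟨2 * u.val + α.toNat, by have := u.isLt; cases α <;> simp <;> omega⟩

lemma rowi_inj {h : ℕ} {u u' : Fin h} {α α' : Bool} (he : rowi u α = rowi u' α') : u = u' := by
  have := congrArg Fin.val he
  simp only [rowi] at this
  apply Fin.ext
  cases α <;> cases α' <;> simp at this <;> omega

/-- family for `NoGrid` -/
def beta1 (h : ℕ) (θ : Th1 q L h) (p : Fin h × Fin h) : Box q L :=
  ((θ.2.2 p).2.2.1, (θ.2.2 p).2.2.2,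
    ⟨pre q L ((θ.2.2 p).2.2.1).val (θ.1 (rowi p.1 (θ.2.2 p).1)).val,
      lt_of_le_of_lt pre_le (θ.1 (rowi p.1 (θ.2.2 p).1)).isLt⟩,
    ⟨pre q L ((θ.2.2 p).2.2.2).val (θ.2.1 (rowi p.2 (θ.2.2 p).2.1)).val,
      lt_of_le_of_lt pre_le (θ.2.1 (rowi p.2 (θ.2.2 p).2.1)).isLt⟩)

lemma noGrid_of_not (h : ℕ) (ω : Box q L → Val q w)
    (hno : ¬ ∃ θ, Function.Injective (beta1 (q := q) (L := L) h θ) ∧
      ∀ k, ω (beta1 h θ k) ∈ MV q w) :
    NoGrid (mkO ω) q L h := by
  classical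
  intro x y i hi j hj hx hy hinjx hinjy hall
  have hall2 : ∀ p : Fin h × Fin h, ∃ (α β : Bool) (i' j' : Fin L), i < i'.val ∧ j < j'.val ∧
      mkO ω i' j' (pre q L i' (x (2 * p.1.val + α.toNat)))
        (pre q L j' (y (2 * p.2.val + β.toNat))) := by
    intro p
    obtain ⟨k, l, i', j', hk, hl, h1, h2, h3, h4, h5⟩ := hall p.1.val p.1.isLt p.2.val p.2.isLt
    rcases hk with rfl | rfl
    · rcases hl with rfl | rfl
      · exact ⟨false, false, ⟨i', h2⟩, ⟨j', h4⟩, h1, h3, h5⟩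
      · exact ⟨false, true, ⟨i', h2⟩, ⟨j', h4⟩, h1, h3, h5⟩
    · rcases hl with rfl | rfl
      · exact ⟨true, false, ⟨i', h2⟩, ⟨j', h4⟩, h1, h3, h5⟩
      · exact ⟨true, true, ⟨i', h2⟩, ⟨j', h4⟩, h1, h3, h5⟩
  choose α β i' j' h1 h3 h5 using hall2
  apply hno
  refine ⟨(fun k => ⟨x k.val, hx k.val k.isLt⟩, fun k => ⟨y k.val, hy k.val k.isLt⟩,
    fun p => (α p, β p, i' p, j' p)), ?_, ?_⟩
  · intro p p' hpp
    have e1 := congrArg (fun b : Box q L => b.1.val) hpp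
    have e2 := congrArg (fun b : Box q L => b.2.1.val) hpp
    have e3 := congrArg (fun b : Box q L => b.2.2.1.val) hpp
    have e4 := congrArg (fun b : Box q L => b.2.2.2.val) hpp
    simp only [beta1] at e1 e2 e3 e4
    rw [e1] at e3
    rw [e2] at e4
    have f3 := pre_congr (j := i + 1) (by have := h1 p'; omega) (i' p').isLt.le e3
    have f4 := pre_congr (j := j + 1) (by have := h3 p'; omega) (j' p').isLt.le e4
    have g3 := hinjx (rowi p.1 (α p)).val (rowi p.1 (α p)).isLt (rowi p'.1 (α p')).val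
      (rowi p'.1 (α p')).isLt f3
    have g4 := hinjy (rowi p.2 (β p)).val (rowi p.2 (β p)).isLt (rowi p'.2 (β p')).val
      (rowi p'.2 (β p')).isLt f4
    exact Prod.ext (rowi_inj (Fin.ext g3)) (rowi_inj (Fin.ext g4))
  · intro p
    rw [mem_MV]
    obtain ⟨_, _, _, _, h5⟩ := h5 p
    exact h5

end

end Pool.Agent.Hhelper5.OrdR
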