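import Mathlib
import Pool.Agent.Hhelper5.OrdR.Prob

set_option autoImplicit false

namespace Pool.Agent.Hhelper5.OrdR

open Finset

section
variable {q L w : ℕ}

lemma InjB.congr {D : ℕ} {f g : ℕ → ℕ} (h : ∀ k < D, f k = g k) (hf : InjB D f) : InjB D g := by
  intro k hk l hl hkl
  apply hf k hk l hl
  rw [h k hk, h l hl, hkl]

/-- data of one side -/
abbrev Side (q L E M : ℕ) := Fin E → Fin (q ^ L) × {g : Fin M → Fin q // Monotone g}

/-- extension of the prefix data to all naturals -/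
def extP {E M : ℕ} (s : Side q L E M) (I : ℕ) : ℕ := if h : I < E then (s ⟨I, h⟩).1.val else 0

/-- extension of the digit data to all naturals -/
def extG {E M : ℕ} (s : Side q L E M) (I a : ℕ) : ℕ :=
  if h : I < E ∧ a < M then ((s ⟨I, h.1⟩).2.1 ⟨a, h.2⟩).val else 0

lemma extG_lt {E M : ℕ} (hq : 0 < q) (s : Side q L E M) (I a : ℕ) : extG s I a < q := by
  unfold extG
  split_ifs with h
  · exact Fin.isLt _
  · exact hq

/-- there is side data extending to the given functions -/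
lemma exists_side {E M : ℕ} (P : ℕ → ℕ) (g : ℕ → ℕ → ℕ)
    (h : ∀ I < E, P I < q ^ L ∧ MonD q M (g I)) :
    ∃ s : Side q L E M, (∀ I < E, extP s I = P I) ∧ ∀ I < E, ∀ a < M, extG s I a = g I a := by
  refine ⟨fun I => (⟨P I.val, (h I.val I.isLt).1⟩,
    ⟨fun a => ⟨g I.val a.val, (h I.val I.isLt).2.2 a.val a.isLt⟩, ?_⟩), ?_, ?_⟩
  · intro a b hab
    exact (h I.val I.isLt).2.1 a.val b.val hab b.isLt
  · intro I hI
    simp [extP, hI]
  · intro I hI a ha
    simp [extG, hI, ha]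

/-- potential core in box `(P,Q)` -/
def pot (D EA EB : ℕ) (PA : ℕ → ℕ) (gA : ℕ → ℕ → ℕ) (PB : ℕ → ℕ) (gB : ℕ → ℕ → ℕ)
    (P Q : ℕ) : Prop :=
  ∃ I < EA, ∃ J < EB, PA I = P ∧ PB J = Q ∧ InjB D (fun k => gA I (k * EB + J)) ∧
    InjB D (fun l => gB J (l * EA + I))

/-- the value `y` at box `(P,Q)` realises a core -/
def hitv (D EA EB : ℕ) (PA : ℕ → ℕ) (gA : ℕ → ℕ → ℕ) (PB : ℕ → ℕ) (gB : ℕ → ℕ → ℕ)
    (P Q : ℕ) (y : Val q w) : Prop :=
  y.1.val = 0 ∧ ∃ I < EA, ∃ J < EB, PA I = P ∧ PB J = Q ∧ InjB D (fun k => gA I (k * EB + J)) ∧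
    InjB D (fun l => gB J (l * EA + I)) ∧
    ∀ k < D, ∀ l < D, bitv y (gA I (k * EB + J)) (gB J (l * EA + I)) = pat k l

open Classical in
lemma hit_nonempty {D EA EB : ℕ} {PA : ℕ → ℕ} {gA : ℕ → ℕ → ℕ} {PB : ℕ → ℕ} {gB : ℕ → ℕ → ℕ}
    (hw : 0 < w) (hgA : ∀ I a, gA I a < q) (hgB : ∀ J a, gB J a < q) {P Q : ℕ}
    (h : pot D EA EB PA gA PB gB P Q) : ∃ y : Val q w, hitv D EA EB PA gA PB gB P Q y := by
  obtain ⟨I, hI, J, hJ, h1, h2, h3, h4⟩ := h
  refine ⟨(⟨0, hw⟩, fun d e => decide (∃ k < D, ∃ l < D, d.val = gA I (k * EB + J) ∧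
    e.val = gB J (l * EA + I) ∧ pat k l = true)), rfl, I, hI, J, hJ, h1, h2, h3, h4, ?_⟩
  intro k hk l hl
  unfold bitv
  rw [dif_pos ⟨hgA _ _, hgB _ _⟩]
  simp only
  by_cases hp : pat k l = true
  · rw [hp]
    simp only [decide_eq_true_eq]
    exact ⟨k, hk, l, hl, rfl, rfl, hp⟩
  · rw [Bool.not_eq_true] at hp
    rw [hp]
    simp only [decide_eq_false_iff_not]
    rintro ⟨k', hk', l', hl', e1, e2, e3⟩
    have f1 := h3 k hk k' hk' e1
    have f2 := h4 l hl l' hl' e2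
    subst f1; subst f2
    rw [hp] at e3
    exact absurd e3 (by simp)

open Classical in
/-- the level `(i,j)` -/
noncomputable def Lam (q L i j : ℕ) : Finset (Box q L) := {b | b.1.val = i ∧ b.2.1.val = j}

open Classical in
/-- the enabled boxes with a potential core -/
noncomputable def WW (i j D EA EB : ℕ) (PA : ℕ → ℕ) (gA : ℕ → ℕ → ℕ) (PB : ℕ → ℕ)
    (gB : ℕ → ℕ → ℕ) (ω : Box q L → Val q w) : Finset (Box q L) :=
  {b | b.1.val = i ∧ b.2.1.val = j ∧ pot D EA EB PA gA PB gB b.2.2.1.val b.2.2.2.val ∧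
    En (mkO ω) q i j b.2.2.1.val b.2.2.2.val}

open Classical in
/-- hitting values -/
noncomputable def HH (D EA EB : ℕ) (PA : ℕ → ℕ) (gA : ℕ → ℕ → ℕ) (PB : ℕ → ℕ)
    (gB : ℕ → ℕ → ℕ) (b : Box q L) : Finset (Val q w) :=
  {y | hitv D EA EB PA gA PB gB b.2.2.1.val b.2.2.2.val y}

lemma mkO_congr {i j : ℕ} {ω ω' : Box q L → Val q w}
    (h : ∀ b, b ∉ Lam q L i j → ω b = ω' b) {i' j' P Q : ℕ} (hne : i' ≠ i ∨ j' ≠ j)
    (hm : mkO ω i' j' P Q) : mkO ω' i' j' P Q := by
  obtain ⟨h1, h2, h3, h4, h5⟩ := hm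
  refine ⟨h1, h2, h3, h4, ?_⟩
  rw [← h]
  · exact h5
  · simp only [Lam, mem_filter, mem_univ, true_and]
    rintro ⟨e1, e2⟩
    rcases hne with hne | hne
    · exact hne e1
    · exact hne e2

lemma En_congr {i j : ℕ} {ω ω' : Box q L → Val q w}
    (h : ∀ b, b ∉ Lam q L i j → ω b = ω' b) {P Q : ℕ} (hE : En (mkO ω) q i j P Q) :
    En (mkO ω') q i j P Q := by
  have h' : ∀ b, b ∉ Lam q L i j → ω' b = ω b := fun b hb => (h b hb).symm
  constructor
  · intro j' hj' hm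
    exact hE.1 j' hj' (mkO_congr h' (Or.inr (by omega)) hm)
  · intro i' hi' hm
    exact hE.2 i' hi' (mkO_congr h' (Or.inl (by omega)) hm)

/-- the third bad event -/
def Bad3 (i j D EA EB w' : ℕ) (ω : Box q L → Val q w) : Prop :=
  ∃ (sA : Side q L EA (D * EB)) (sB : Side q L EB (D * EA)),
    w' ≤ #(WW i j D EA EB (extP sA) (extG sA) (extP sB) (extG sB) ω) ∧
    ∀ b ∈ WW i j D EA EB (extP sA) (extG sA) (extP sB) (extG sB) ω,
      ω b ∉ HH D EA EB (extP sA) (extG sA) (extP sB) (extG sB) b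

open Classical in
theorem card_Bad3 (hq : 0 < q) (hw : 0 < w) (i j D EA EB w' : ℕ) :
    #{ω : Box q L → Val q w | Bad3 i j D EA EB w' ω} * Fintype.card (Val q w) ^ w' ≤
      ((q ^ L * (D * EB + 1) ^ q) ^ EA * (q ^ L * (D * EA + 1) ^ q) ^ EB) *
      ((Fintype.card (Val q w) - 1) ^ w' *
        Fintype.card (Val q w) ^ Fintype.card (Box q L)) := by
  have hcS : ∀ E M : ℕ, Fintype.card (Side q L E M) ≤ (q ^ L * (M + 1) ^ q) ^ E := by
    intro E M
    rw [Fintype.card_fun, Fintype.card_fin, Fintype.card_prod, Fintype.card_fin]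
    apply Nat.pow_le_pow_left
    apply Nat.mul_le_mul_left
    rw [Fintype.card_eq_nat_card]
    exact card_monotone M q
  have hone : ∀ (sA : Side q L EA (D * EB)) (sB : Side q L EB (D * EA)),
      #{ω : Box q L → Val q w |
        w' ≤ #(WW i j D EA EB (extP sA) (extG sA) (extP sB) (extG sB) ω) ∧
        ∀ b ∈ WW i j D EA EB (extP sA) (extG sA) (extP sB) (extG sB) ω,
          ω b ∉ HH D EA EB (extP sA) (extG sA) (extP sB) (extG sB) b} *
        Fintype.card (Val q w) ^ w' ≤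
      (Fintype.card (Val q w) - 1) ^ w' *
        Fintype.card (Val q w) ^ Fintype.card (Box q L) := by
    intro sA sB
    apply card_conditional (Lam q L i j)
    · intro ω ω' h
      ext b
      simp only [WW, mem_filter, mem_univ, true_and]
      constructor
      · rintro ⟨h1, h2, h3, h4⟩
        exact ⟨h1, h2, h3, En_congr h h4⟩
      · rintro ⟨h1, h2, h3, h4⟩
        exact ⟨h1, h2, h3, En_congr (fun b hb => (h b hb).symm) h4⟩
    · intro ω b hb
      simp only [WW, mem_filter, mem_univ, true_and] at hb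
      simp only [Lam, mem_filter, mem_univ, true_and]
      exact ⟨hb.1, hb.2.1⟩
    · intro ω b hb
      simp only [WW, mem_filter, mem_univ, true_and] at hb
      obtain ⟨y, hy⟩ := hit_nonempty (w := w) hw (extG_lt hq sA) (extG_lt hq sB) hb.2.2.1
      refine ⟨y, ?_⟩
      simp only [HH, mem_filter, mem_univ, true_and]
      exact hy
  have hsub : ({ω : Box q L → Val q w | Bad3 i j D EA EB w' ω} : Finset _) ⊆
      (univ : Finset (Side q L EA (D * EB) × Side q L EB (D * EA))).biUnion (fun s =>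
        {ω : Box q L → Val q w |
        w' ≤ #(WW i j D EA EB (extP s.1) (extG s.1) (extP s.2) (extG s.2) ω) ∧
        ∀ b ∈ WW i j D EA EB (extP s.1) (extG s.1) (extP s.2) (extG s.2) ω,
          ω b ∉ HH D EA EB (extP s.1) (extG s.1) (extP s.2) (extG s.2) b}) := by
    intro ω hω
    simp only [mem_filter, mem_univ, true_and] at hω
    obtain ⟨sA, sB, h⟩ := hω
    simp only [mem_biUnion, mem_filter, mem_univ, true_and]
    exact ⟨(sA, sB), h⟩
  calc #{ω : Box q L → Val q w | Bad3 i j D EA EB w' ω} * Fintype.card (Val q w) ^ w'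
      ≤ (∑ s : Side q L EA (D * EB) × Side q L EB (D * EA), #{ω : Box q L → Val q w |
        w' ≤ #(WW i j D EA EB (extP s.1) (extG s.1) (extP s.2) (extG s.2) ω) ∧
        ∀ b ∈ WW i j D EA EB (extP s.1) (extG s.1) (extP s.2) (extG s.2) ω,
          ω b ∉ HH D EA EB (extP s.1) (extG s.1) (extP s.2) (extG s.2) b}) *
          Fintype.card (Val q w) ^ w' :=
        Nat.mul_le_mul_right _ ((Finset.card_le_card hsub).trans Finset.card_biUnion_le)
    _ = ∑ s : Side q L EA (D * EB) × Side q L EB (D * EA), #{ω : Box q L → Val q w |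
        w' ≤ #(WW i j D EA EB (extP s.1) (extG s.1) (extP s.2) (extG s.2) ω) ∧
        ∀ b ∈ WW i j D EA EB (extP s.1) (extG s.1) (extP s.2) (extG s.2) ω,
          ω b ∉ HH D EA EB (extP s.1) (extG s.1) (extP s.2) (extG s.2) b} *
          Fintype.card (Val q w) ^ w' := by rw [Finset.sum_mul]
    _ ≤ ∑ _s : Side q L EA (D * EB) × Side q L EB (D * EA),
          ((Fintype.card (Val q w) - 1) ^ w' *
            Fintype.card (Val q w) ^ Fintype.card (Box q L)) :=
        Finset.sum_le_sum (fun s _ => hone s.1 s.2)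
    _ = Fintype.card (Side q L EA (D * EB)) * Fintype.card (Side q L EB (D * EA)) *
          ((Fintype.card (Val q w) - 1) ^ w' *
            Fintype.card (Val q w) ^ Fintype.card (Box q L)) := by
        rw [Finset.sum_const, card_univ, smul_eq_mul, Fintype.card_prod]
    _ ≤ _ := Nat.mul_le_mul_right _ (Nat.mul_le_mul (hcS _ _) (hcS _ _))

theorem hits_of_not {i j D EA EB : ℕ} (hi : i < L) (hj : j < L)
    {ω : Box q L → Val q w}
    (hno : ¬ Bad3 i j D EA EB (EA * EB / (2 * (L * L) * (q * q))) ω) :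
    Hits (mkO ω) (btO ω) q L D EA EB i j := by
  classical
  intro PA gA PB gB hA hB W hW hbig
  obtain ⟨sA, hPA, hgA⟩ := exists_side PA gA hA
  obtain ⟨sB, hPB, hgB⟩ := exists_side PB gB hB
  unfold Bad3 at hno
  push Not at hno
  have idxA : ∀ {k J : ℕ}, k < D → J < EB → k * EB + J < D * EB := by
    intro k J hk hJ
    calc k * EB + J < k * EB + EB := by omega
      _ = (k + 1) * EB := by ring
      _ ≤ D * EB := Nat.mul_le_mul_right _ hk
  have idxB : ∀ {l I : ℕ}, l < D → I < EA → l * EA + I < D * EA := by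
    intro l I hl hI
    calc l * EA + I < l * EA + EA := by omega
      _ = (l + 1) * EA := by ring
      _ ≤ D * EA := Nat.mul_le_mul_right _ hl
  -- size of the enabled set
  have hWcard : #W ≤ #(WW i j D EA EB (extP sA) (extG sA) (extP sB) (extG sB) ω) := by
    apply Finset.card_le_card_of_surjOn (fun b : Box q L => (b.2.2.1.val, b.2.2.2.val))
    intro PQ hPQ
    obtain ⟨hEn, I, hI, J, hJ, h1, h2, h3, h4⟩ := hW PQ hPQ
    have hP : PQ.1 < q ^ L := by rw [← h1]; exact (hA I hI).1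
    have hQ : PQ.2 < q ^ L := by rw [← h2]; exact (hB J hJ).1
    refine ⟨(⟨i, hi⟩, ⟨j, hj⟩, ⟨PQ.1, hP⟩, ⟨PQ.2, hQ⟩), ?_, rfl⟩
    rw [mem_coe]
    simp only [WW, mem_filter, mem_univ, true_and]
    refine ⟨⟨I, hI, J, hJ, ?_, ?_, ?_, ?_⟩, hEn⟩
    · rw [hPA I hI, h1]
    · rw [hPB J hJ, h2]
    · exact h3.congr (fun k hk => (hgA I hI _ (idxA hk hJ)).symm)
    · exact h4.congr (fun k hk => (hgB J hJ _ (idxB hk hI)).symm)
  have hw' : EA * EB / (2 * (L * L) * (q * q)) ≤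
      #(WW i j D EA EB (extP sA) (extG sA) (extP sB) (extG sB) ω) := by
    refine le_trans ?_ hWcard
    apply Nat.div_le_of_le_mul
    exact hbig
  obtain ⟨b, hb, hhit⟩ := hno sA sB hw'
  simp only [WW, mem_filter, mem_univ, true_and] at hb
  simp only [HH, mem_filter, mem_univ, true_and] at hhit
  obtain ⟨hb1, hb2, _, hEn⟩ := hb
  obtain ⟨h0, I, hI, J, hJ, h1, h2, h3, h4, h5⟩ := hhit
  rw [hPA I hI] at h1
  rw [hPB J hJ] at h2
  have hbeq : b = (⟨i, hi⟩, ⟨j, hj⟩, ⟨b.2.2.1.val, b.2.2.1.isLt⟩, ⟨b.2.2.2.val, b.2.2.2.isLt⟩) := by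
    obtain ⟨b1, b2, b3, b4⟩ := b
    simp only at hb1 hb2
    subst hb1; subst hb2
    rfl
  refine ⟨I, hI, J, hJ, ?_, ?_, ?_, ?_, ?_⟩
  · rw [h1, h2]
    refine ⟨hi, hj, b.2.2.1.isLt, b.2.2.2.isLt, ?_⟩
    rw [← hbeq]; exact h0
  · rw [h1, h2]; exact hEn
  · exact h3.congr (fun k hk => hgA I hI _ (idxA hk hJ))
  · exact h4.congr (fun k hk => hgB J hJ _ (idxB hk hI))
  · intro k hk l hl
    have := h5 k hk l hl
    rw [hgA I hI _ (idxA hk hJ), hgB J hJ _ (idxB hl hI)] at this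
    rw [h1, h2]
    unfold btO
    rw [dif_pos ⟨hi, hj, b.2.2.1.isLt, b.2.2.2.isLt⟩, ← hbeq]
    exact this

lemma cancel_aux {A B K R Om : ℕ} (hB : 0 < B) (h1 : A * B ≤ R * Om) (h2 : K * R ≤ B) :
    K * A ≤ Om := by
  apply Nat.le_of_mul_le_mul_right _ hB
  calc K * A * B = K * (A * B) := by ring
    _ ≤ K * (R * Om) := Nat.mul_le_mul_left _ h1
    _ = K * R * Om := by ring
    _ ≤ B * Om := Nat.mul_le_mul_right _ h2
    _ = Om * B := by ring

/-- first bad event -/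
noncomputable def B0 (q L w D : ℕ) : Finset (Box q L → Val q w) :=
  badSet (MV q w) (beta0 (q := q) (L := L) D)

/-- second bad event -/
noncomputable def B1 (q L w h : ℕ) : Finset (Box q L → Val q w) :=
  badSet (MV q w) (beta1 (q := q) (L := L) h)

open Classical in
/-- third bad event -/
noncomputable def B3 (q L w i j D EA EB w' : ℕ) : Finset (Box q L → Val q w) :=
  {ω | Bad3 i j D EA EB w' ω}

lemma card_B0 {D : ℕ} (hw : 0 < w)
    (c0 : 5 * (q ^ L * (q ^ L * (L ^ (D + 1) * L ^ (D + 1)))) ≤ w ^ (D + 1)) :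
    5 * #(B0 q L w D) ≤ Fintype.card (Val q w) ^ Fintype.card (Box q L) := by
  have h1 := card_badSet (MV q w) w (card_MV hw) (beta0 (q := q) (L := L) D)
  rw [Fintype.card_fin] at h1
  have hc : Fintype.card (Fin (q ^ L) × Fin (q ^ L) × (Fin (D + 1) → Fin L) ×
      (Fin (D + 1) → Fin L)) = q ^ L * (q ^ L * (L ^ (D + 1) * L ^ (D + 1))) := by
    rw [Fintype.card_prod, Fintype.card_prod, Fintype.card_prod, Fintype.card_fun,
      Fintype.card_fin, Fintype.card_fin, Fintype.card_fin]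
  rw [hc] at h1
  exact cancel_aux (Nat.pow_pos hw) h1 c0

lemma card_B1 {h : ℕ} (hw : 0 < w)
    (c1 : 5 * ((q ^ L) ^ (2 * h) * ((q ^ L) ^ (2 * h) * (2 * (2 * (L * L))) ^ (h * h))) ≤
      w ^ (h * h)) :
    5 * #(B1 q L w h) ≤ Fintype.card (Val q w) ^ Fintype.card (Box q L) := by
  have h1 := card_badSet (MV q w) w (card_MV hw) (beta1 (q := q) (L := L) h)
  have hck : Fintype.card (Fin h × Fin h) = h * h := by
    rw [Fintype.card_prod, Fintype.card_fin]
  rw [hck] at h1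
  have hc : Fintype.card (Th1 q L h) =
      (q ^ L) ^ (2 * h) * ((q ^ L) ^ (2 * h) * (2 * (2 * (L * L))) ^ (h * h)) := by
    rw [Fintype.card_prod, Fintype.card_prod, Fintype.card_fun, Fintype.card_fun,
      Fintype.card_prod, Fintype.card_prod, Fintype.card_prod, Fintype.card_prod,
      Fintype.card_bool, Fintype.card_fin, Fintype.card_fin, Fintype.card_fin, Fintype.card_fin]
  rw [hc] at h1
  exact cancel_aux (Nat.pow_pos hw) h1 c1

lemma card_B3 {i j D EA EB w' K : ℕ} (hq : 0 < q) (hw : 0 < w)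
    (c3 : K * (((q ^ L * (D * EB + 1) ^ q) ^ EA * (q ^ L * (D * EA + 1) ^ q) ^ EB) *
      (Fintype.card (Val q w) - 1) ^ w') ≤ Fintype.card (Val q w) ^ w') :
    K * #(B3 q L w i j D EA EB w') ≤ Fintype.card (Val q w) ^ Fintype.card (Box q L) := by
  have h1 := card_Bad3 (q := q) (L := L) (w := w) hq hw i j D EA EB w'
  rw [← mul_assoc] at h1
  have hYpos : 0 < Fintype.card (Val q w) := by
    rw [card_Val]; exact Nat.mul_pos hw (by positivity)
  exact cancel_aux (Nat.pow_pos hYpos) h1 c3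

/-- **existence of a good outcome** -/
theorem exists_outcome {D h t₀ S T C : ℕ} (hq : 0 < q) (hL : 0 < L) (hS : 0 < S)
    (hw : 0 < w)
    (c0 : 5 * (q ^ L * (q ^ L * (L ^ (D + 1) * L ^ (D + 1)))) ≤ w ^ (D + 1))
    (c1 : 5 * ((q ^ L) ^ (2 * h) * ((q ^ L) ^ (2 * h) * (2 * (2 * (L * L))) ^ (h * h))) ≤
      w ^ (h * h))
    (c3 : ∀ t ∈ Ioc t₀ (t₀ + S), ∀ t' ∈ Ioc t₀ (t₀ + S),
      5 * (S * S * (L * L)) * (((q ^ L * (D * C ^ (T - t') + 1) ^ q) ^ (C ^ (T - t)) *
        (q ^ L * (D * C ^ (T - t) + 1) ^ q) ^ (C ^ (T - t'))) *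
      ((Fintype.card (Val q w) - 1) ^ (C ^ (T - t) * C ^ (T - t') / (2 * (L * L) * (q * q))))) ≤
      Fintype.card (Val q w) ^ (C ^ (T - t) * C ^ (T - t') / (2 * (L * L) * (q * q)))) :
    ∃ (mk : ℕ → ℕ → ℕ → ℕ → Prop) (bt : ℕ → ℕ → ℕ → ℕ → ℕ → ℕ → Bool),
      Few mk q L D ∧ NoGrid mk q L h ∧
      ∀ t ∈ Ioc t₀ (t₀ + S), ∀ t' ∈ Ioc t₀ (t₀ + S), ∀ i < L, ∀ j < L,
        Hits mk bt q L D (C ^ (T - t)) (C ^ (T - t')) i j := by
  classical
  by_contra hcon
  push Not at hcon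
  have hYpos : 0 < Fintype.card (Val q w) := by
    rw [card_Val]; exact Nat.mul_pos hw (by positivity)
  have e0 := card_B0 (q := q) (L := L) (w := w) hw c0
  have e1 := card_B1 (q := q) (L := L) (w := w) hw c1
  have e3 : ∀ t ∈ Ioc t₀ (t₀ + S), ∀ t' ∈ Ioc t₀ (t₀ + S), ∀ i j,
      5 * (S * S * (L * L)) * #(B3 q L w i j D (C ^ (T - t)) (C ^ (T - t'))
        (C ^ (T - t) * C ^ (T - t') / (2 * (L * L) * (q * q)))) ≤
      Fintype.card (Val q w) ^ Fintype.card (Box q L) := by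
    intro t ht t' ht' i j
    exact card_B3 hq hw (c3 t ht t' ht')
  have hcU : #(univ : Finset (Box q L → Val q w)) =
      Fintype.card (Val q w) ^ Fintype.card (Box q L) := by
    rw [card_univ, Fintype.card_fun]
  have hOmpos : 0 < Fintype.card (Val q w) ^ Fintype.card (Box q L) := Nat.pow_pos hYpos
  generalize Fintype.card (Val q w) ^ Fintype.card (Box q L) = Om at *
  let Idx : Finset ((ℕ × ℕ) × (ℕ × ℕ)) :=
    (Ioc t₀ (t₀ + S) ×ˢ Ioc t₀ (t₀ + S)) ×ˢ (range L ×ˢ range L)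
  have hIdx : #Idx = S * S * (L * L) := by
    have e : t₀ + S - t₀ = S := by omega
    simp only [Idx, card_product, Nat.card_Ioc, card_range, e]
  let F3 : ((ℕ × ℕ) × (ℕ × ℕ)) → Finset (Box q L → Val q w) := fun p =>
    B3 q L w p.2.1 p.2.2 D (C ^ (T - p.1.1)) (C ^ (T - p.1.2))
        (C ^ (T - p.1.1) * C ^ (T - p.1.2) / (2 * (L * L) * (q * q)))
  have hcover : (univ : Finset (Box q L → Val q w)) ⊆ (B0 q L w D ∪ B1 q L w h) ∪
      Idx.biUnion F3 := by
    intro ω _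
    by_cases h0 : ω ∈ B0 q L w D
    · exact mem_union_left _ (mem_union_left _ h0)
    by_cases h1 : ω ∈ B1 q L w h
    · exact mem_union_left _ (mem_union_right _ h1)
    apply mem_union_right
    rw [B0, mem_badSet] at h0
    rw [B1, mem_badSet] at h1
    obtain ⟨t, ht, t', ht', i, hi, j, hj, hnh⟩ := hcon (mkO ω) (btO ω) (few_of_not D ω h0)
      (noGrid_of_not h ω h1)
    rw [mem_biUnion]
    refine ⟨((t, t'), (i, j)), ?_, ?_⟩
    · simp only [Idx, mem_product, mem_range]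
      exact ⟨⟨ht, ht'⟩, hi, hj⟩
    · simp only [F3, B3, mem_filter, mem_univ, true_and]
      by_contra hb
      exact hnh (hits_of_not hi hj hb)
  have e3' : 5 * #(Idx.biUnion F3) ≤ Om := by
    have hpos : 0 < S * S * (L * L) := by positivity
    apply Nat.le_of_mul_le_mul_left _ hpos
    calc S * S * (L * L) * (5 * #(Idx.biUnion F3))
        ≤ S * S * (L * L) * (5 * ∑ p ∈ Idx, #(F3 p)) := by
          apply Nat.mul_le_mul_left
          apply Nat.mul_le_mul_left
          exact Finset.card_biUnion_le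
      _ = ∑ p ∈ Idx, 5 * (S * S * (L * L)) * #(F3 p) := by
          rw [← Finset.mul_sum]; ring
      _ ≤ ∑ p ∈ Idx, Om := by
          apply Finset.sum_le_sum
          intro p hp
          simp only [Idx, mem_product, mem_range] at hp
          exact e3 p.1.1 hp.1.1 p.1.2 hp.1.2 p.2.1 p.2.2
      _ = S * S * (L * L) * Om := by rw [Finset.sum_const, hIdx, smul_eq_mul]
  have hcard := Finset.card_le_card hcover
  rw [hcU] at hcard
  have h5 := Finset.card_union_le (B0 q L w D ∪ B1 q L w h) (Idx.biUnion F3)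
  have h6 := Finset.card_union_le (B0 q L w D) (B1 q L w h)
  omega

end

end Pool.Agent.Hhelper5.OrdR
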