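import Mathlib
import Pool.Agent.Hhelper5.OrdR.Graph
import Pool.Agent.Hhelper5.OrdR.Prob3

set_option autoImplicit false

namespace Pool.Agent.Hhelper5.OrdR

open Finset

/-- polynomials are eventually below `2^m` -/
lemma ev_poly (K a : ℕ) : ∃ M : ℕ, ∀ m : ℕ, M ≤ m → K * m ^ a ≤ 2 ^ m := by
  have h := tendsto_pow_const_div_const_pow_of_one_lt a (r := (2 : ℝ)) (by norm_num)
  have h2 : ∀ᶠ m : ℕ in Filter.atTop, (m : ℝ) ^ a / 2 ^ m < 1 / (K + 1) := by
    apply h.eventually_lt_const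
    positivity
  obtain ⟨M, hM⟩ := Filter.eventually_atTop.1 h2
  refine ⟨M, fun m hm => ?_⟩
  have h3 := hM m hm
  rw [div_lt_div_iff₀ (by positivity) (by positivity)] at h3
  have h4 : (K : ℝ) * (m : ℝ) ^ a ≤ 2 ^ m := by nlinarith [pow_nonneg (Nat.cast_nonneg (α := ℝ) m) a]
  exact_mod_cast h4

lemma ev_poly' (C : ℕ) (hC : 2 ≤ C) (K a : ℕ) : ∃ M : ℕ, ∀ m : ℕ, M ≤ m → K * m ^ a ≤ C ^ m := by
  obtain ⟨M, hM⟩ := ev_poly K a
  exact ⟨M, fun m hm => (hM m hm).trans (Nat.pow_le_pow_left hC m)⟩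

/-- Bernoulli-type inequality -/
lemma bern (Y z : ℕ) (hY : 1 ≤ Y) : (Y - 1) ^ (Y * z) * 2 ^ z ≤ Y ^ (Y * z) := by
  have h1 : (Y - 1) ^ Y * 2 ≤ Y ^ Y := by
    obtain ⟨X, rfl⟩ : ∃ X, Y = X + 1 := ⟨Y - 1, by omega⟩
    simp only [Nat.add_sub_cancel]
    -- (X+1)^(X+1) ≥ X^(X+1) + (X+1) X^X
    have h2 : X ^ (X + 1) + (X + 1) * X ^ X ≤ (X + 1) ^ (X + 1) := by
      rw [add_pow X 1 (X + 1), Finset.sum_range_succ]
      have h3 : (X + 1) * X ^ X ≤ ∑ x ∈ range (X + 1), X ^ x * 1 ^ (X + 1 - x) * ((X + 1).choose x) := by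
        have h4 := Finset.single_le_sum (f := fun x => X ^ x * 1 ^ (X + 1 - x) * ((X + 1).choose x))
          (fun i _ => Nat.zero_le _) (mem_range.2 (Nat.lt_succ_self X))
        simp only [one_pow, mul_one] at h4
        rw [Nat.choose_succ_self_right] at h4
        calc (X + 1) * X ^ X = X ^ X * (X + 1) := by ring
          _ ≤ _ := by simpa using h4
      simp only [Nat.sub_self, pow_zero, mul_one, Nat.choose_self, Nat.cast_one]
      push_cast at h3 ⊢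
      simp only [one_pow, mul_one] at h3 ⊢
      omega
    have h5 : X ^ (X + 1) ≤ (X + 1) * X ^ X := by
      rw [pow_succ, mul_comm]
      exact Nat.mul_le_mul_right _ (Nat.le_succ X)
    omega
  calc (Y - 1) ^ (Y * z) * 2 ^ z = ((Y - 1) ^ Y * 2) ^ z := by rw [mul_pow, ← pow_mul]
    _ ≤ (Y ^ Y) ^ z := Nat.pow_le_pow_left h1 z
    _ = Y ^ (Y * z) := by rw [← pow_mul]

lemma bern' (Y z w' : ℕ) (hY : 1 ≤ Y) (hz : Y * z ≤ w') : (Y - 1) ^ w' * 2 ^ z ≤ Y ^ w' := by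
  have e : w' = Y * z + (w' - Y * z) := by omega
  calc (Y - 1) ^ w' * 2 ^ z = ((Y - 1) ^ (Y * z) * 2 ^ z) * (Y - 1) ^ (w' - Y * z) := by
        rw [e, pow_add]; simp only [Nat.add_sub_cancel_left]; ring
    _ ≤ Y ^ (Y * z) * Y ^ (w' - Y * z) :=
        Nat.mul_le_mul (bern Y z hY) (Nat.pow_le_pow_left (Nat.sub_le _ _) _)
    _ = Y ^ w' := by rw [← pow_add]; congr 1; omega

/-- all numerical conditions, with `D = 2h`, `C = 4h`, `q = C^(D^2)`, `L = 5m`, `r = D m` -/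
structure Big (h D C q L r m : ℕ) : Prop where
  hh : 1 ≤ h
  hD : D = 2 * h
  hC : C = 2 * D
  hq : q = C ^ (D * D)
  hL : L = 5 * m
  hr : r = D * m
  m1 : 1 ≤ m
  e1 : (100 * r) * (100 * r) ≤ C ^ m
  e2 : 100 * (100 * r * q) ≤ C ^ m
  e3 : 5 * (L ^ (D + 1) * L ^ (D + 1)) ≤ C ^ m
  e4 : 5 * (2 * (2 * (L * L))) ^ (h * h) ≤ C ^ m
  e5 : 5 * ((100 * r) * (100 * r) * (L * L)) ≤ C ^ m
  e6 : 2 * (2 ^ (q * q) * (C * (5 * D * r + 180 * r * q + 1)) * (2 * (L * L) * (q * q))) ≤ C ^ m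

lemma big_ev (h : ℕ) (hh : 1 ≤ h) : ∃ M : ℕ, ∀ m : ℕ, M ≤ m →
    Big h (2 * h) (2 * (2 * h)) ((2 * (2 * h)) ^ (2 * h * (2 * h))) (5 * m) (2 * h * m) m := by
  set D := 2 * h with hD
  set C := 2 * D with hC
  set q := C ^ (D * D) with hq
  have hC2 : 2 ≤ C := by omega
  obtain ⟨M1, h1⟩ := ev_poly' C hC2 (100 * D * (100 * D)) 2
  obtain ⟨M2, h2⟩ := ev_poly' C hC2 (100 * (100 * D * q)) 1
  obtain ⟨M3, h3⟩ := ev_poly' C hC2 (5 * (5 ^ (D + 1) * 5 ^ (D + 1))) (D + 1 + (D + 1))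
  obtain ⟨M4, h4⟩ := ev_poly' C hC2 (5 * 100 ^ (h * h)) (2 * (h * h))
  obtain ⟨M5, h5⟩ := ev_poly' C hC2 (5 * (100 * D * (100 * D) * 25)) 4
  obtain ⟨M6, h6⟩ := ev_poly' C hC2
    (2 * (2 ^ (q * q) * (C * (5 * D * D + 180 * D * q + 1)) * (2 * 25 * (q * q)))) 3
  refine ⟨M1 + M2 + M3 + M4 + M5 + M6 + 1, fun m hm => ?_⟩
  refine ⟨hh, rfl, rfl, rfl, rfl, rfl, by omega, ?_, ?_, ?_, ?_, ?_, ?_⟩
  · calc 100 * (D * m) * (100 * (D * m)) = 100 * D * (100 * D) * m ^ 2 := by ring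
      _ ≤ C ^ m := h1 m (by omega)
  · calc 100 * (100 * (D * m) * q) = 100 * (100 * D * q) * m ^ 1 := by ring
      _ ≤ C ^ m := h2 m (by omega)
  · calc 5 * ((5 * m) ^ (D + 1) * (5 * m) ^ (D + 1)) =
        5 * (5 ^ (D + 1) * 5 ^ (D + 1)) * m ^ (D + 1 + (D + 1)) := by
          rw [mul_pow, pow_add m]; ring
      _ ≤ C ^ m := h3 m (by omega)
  · calc 5 * (2 * (2 * (5 * m * (5 * m)))) ^ (h * h) = 5 * 100 ^ (h * h) * m ^ (2 * (h * h)) := by
          rw [show 2 * (2 * (5 * m * (5 * m))) = 100 * m ^ 2 by ring, mul_pow, ← pow_mul]; ring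
      _ ≤ C ^ m := h4 m (by omega)
  · calc 5 * (100 * (D * m) * (100 * (D * m)) * (5 * m * (5 * m))) =
        5 * (100 * D * (100 * D) * 25) * m ^ 4 := by ring
      _ ≤ C ^ m := h5 m (by omega)
  · have hm1 : 1 ≤ m := by omega
    calc 2 * (2 ^ (q * q) * (C * (5 * D * (D * m) + 180 * (D * m) * q + 1)) *
          (2 * (5 * m * (5 * m)) * (q * q)))
        ≤ 2 * (2 ^ (q * q) * (C * (5 * D * (D * m) + 180 * (D * m) * q + m)) *
          (2 * (5 * m * (5 * m)) * (q * q))) := by gcongr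
      _ = 2 * (2 ^ (q * q) * (C * (5 * D * D + 180 * D * q + 1)) * (2 * 25 * (q * q))) * m ^ 3 := by
          ring
      _ ≤ C ^ m := h6 m (by omega)

section
variable {h D C q L r m : ℕ}

lemma Big.C2 (b : Big h D C q L r m) : 2 ≤ C := by
  have := b.hh; have := b.hD; have := b.hC; omega

lemma Big.q1 (b : Big h D C q L r m) : 1 ≤ q := by
  rw [b.hq]; exact Nat.pow_pos (by have := b.C2; omega)

lemma Big.mr (b : Big h D C q L r m) : m ≤ r := by
  rw [b.hr]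
  exact Nat.le_mul_of_pos_left _ (by have := b.hh; have := b.hD; omega)

lemma Big.par (b : Big h D C q L r m) : Par q L C D h m (220 * r) (100 * r) (400 * r) := by
  have hmr := b.mr
  have hm1 := b.m1
  refine ⟨b.hD, b.hh, b.hC.ge, b.q1, by omega, by omega, by omega, by omega, b.e1, ?_, ?_, b.e2,
    by omega⟩
  · rw [b.hC, b.hL, b.hr]
    exact le_of_eq (by ring)
  · rw [b.hr]

lemma Big.qL (b : Big h D C q L r m) : q ^ L = C ^ (5 * D * r) := by
  rw [b.hq, ← pow_mul, b.hL, b.hr]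
  congr 1
  ring

lemma Big.c0 (b : Big h D C q L r m) :
    5 * (q ^ L * (q ^ L * (L ^ (D + 1) * L ^ (D + 1)))) ≤ (C ^ (50 * r)) ^ (D + 1) := by
  rw [b.qL, ← pow_mul]
  calc 5 * (C ^ (5 * D * r) * (C ^ (5 * D * r) * (L ^ (D + 1) * L ^ (D + 1))))
      = C ^ (5 * D * r) * C ^ (5 * D * r) * (5 * (L ^ (D + 1) * L ^ (D + 1))) := by ring
    _ ≤ C ^ (5 * D * r) * C ^ (5 * D * r) * C ^ m := Nat.mul_le_mul_left _ b.e3
    _ = C ^ (5 * D * r + 5 * D * r + m) := by rw [pow_add, pow_add]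
    _ ≤ C ^ (50 * r * (D + 1)) := by
        apply Nat.pow_le_pow_right (by have := b.C2; omega)
        have := b.mr
        nlinarith [Nat.zero_le (D * r)]

lemma Big.c1 (b : Big h D C q L r m) :
    5 * ((q ^ L) ^ (2 * h) * ((q ^ L) ^ (2 * h) * (2 * (2 * (L * L))) ^ (h * h))) ≤
      (C ^ (50 * r)) ^ (h * h) := by
  rw [b.qL, ← pow_mul, ← pow_mul]
  calc 5 * (C ^ (5 * D * r * (2 * h)) * (C ^ (5 * D * r * (2 * h)) *
        (2 * (2 * (L * L))) ^ (h * h)))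
      = C ^ (5 * D * r * (2 * h)) * C ^ (5 * D * r * (2 * h)) *
        (5 * (2 * (2 * (L * L))) ^ (h * h)) := by ring
    _ ≤ C ^ (5 * D * r * (2 * h)) * C ^ (5 * D * r * (2 * h)) * C ^ m :=
        Nat.mul_le_mul_left _ b.e4
    _ = C ^ (5 * D * r * (2 * h) + 5 * D * r * (2 * h) + m) := by rw [pow_add, pow_add]
    _ ≤ C ^ (50 * r * (h * h)) := by
        apply Nat.pow_le_pow_right (by have := b.C2; omega)
        have h1 := b.mr
        have h2 := b.hD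
        subst h2
        have h3 : r ≤ r * (h * h) := Nat.le_mul_of_pos_right _ (Nat.mul_pos b.hh b.hh)
        calc 5 * (2 * h) * r * (2 * h) + 5 * (2 * h) * r * (2 * h) + m
            = 40 * (r * (h * h)) + m := by ring
          _ ≤ 40 * (r * (h * h)) + r * (h * h) := by omega
          _ ≤ 50 * r * (h * h) := by nlinarith

lemma Big.c3 (b : Big h D C q L r m) :
    ∀ t ∈ Ioc (220 * r) (220 * r + 100 * r), ∀ t' ∈ Ioc (220 * r) (220 * r + 100 * r),
      5 * (100 * r * (100 * r) * (L * L)) * (((q ^ L * (D * C ^ (400 * r - t') + 1) ^ q) ^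
        (C ^ (400 * r - t)) *
        (q ^ L * (D * C ^ (400 * r - t) + 1) ^ q) ^ (C ^ (400 * r - t'))) *
      ((Fintype.card (Val q (C ^ (50 * r))) - 1) ^
        (C ^ (400 * r - t) * C ^ (400 * r - t') / (2 * (L * L) * (q * q))))) ≤
      Fintype.card (Val q (C ^ (50 * r))) ^
        (C ^ (400 * r - t) * C ^ (400 * r - t') / (2 * (L * L) * (q * q))) := by
  intro t ht t' ht'
  rw [mem_Ioc] at ht ht'
  have hC2 := b.C2
  have hCpos : 0 < C := by omega
  have hm1 := b.m1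
  have hmr := b.mr
  have hqpos := b.q1
  have hLpos : 0 < L := by have := b.hL; omega
  have hDC := b.hC
  -- side bound
  have side : ∀ s, 220 * r < s → D * C ^ (400 * r - s) + 1 ≤ C ^ (180 * r) := by
    intro s hs
    have hD1 : 1 ≤ D := by have := b.hh; have := b.hD; omega
    have hp : 1 ≤ C ^ (400 * r - s) := Nat.pow_pos hCpos
    calc D * C ^ (400 * r - s) + 1 ≤ D * C ^ (400 * r - s) + D * C ^ (400 * r - s) := by
          have : 1 ≤ D * C ^ (400 * r - s) := Nat.mul_pos hD1 hp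
          omega
      _ = C * C ^ (400 * r - s) := by rw [hDC]; ring
      _ = C ^ (400 * r - s + 1) := by rw [pow_succ]; ring
      _ ≤ C ^ (180 * r) := Nat.pow_le_pow_right hCpos (by omega)
  have bigE : ∀ s, s ≤ 220 * r + 100 * r → C ^ (80 * r) ≤ C ^ (400 * r - s) := by
    intro s hs
    exact Nat.pow_le_pow_right hCpos (by omega)
  have hEA := bigE t ht.2
  have hEB := bigE t' ht'.2
  have sA := side t ht.1
  have sB := side t' ht'.1
  generalize hEAe : C ^ (400 * r - t) = EA at *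
  generalize hEBe : C ^ (400 * r - t') = EB at *
  set X := 5 * D * r + 180 * r * q with hX
  have hdataA : q ^ L * (D * EB + 1) ^ q ≤ C ^ X := by
    rw [b.qL, hX, pow_add, pow_mul C (180 * r) q]
    exact Nat.mul_le_mul_left _ (Nat.pow_le_pow_left sB q)
  have hdataB : q ^ L * (D * EA + 1) ^ q ≤ C ^ X := by
    rw [b.qL, hX, pow_add, pow_mul C (180 * r) q]
    exact Nat.mul_le_mul_left _ (Nat.pow_le_pow_left sA q)
  set Y := Fintype.card (Val q (C ^ (50 * r))) with hY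
  have hYe : Y = C ^ (50 * r) * 2 ^ (q * q) := card_Val
  have hY1 : 1 ≤ Y := by rw [hYe]; exact Nat.mul_pos (Nat.pow_pos hCpos) (by positivity)
  set z := C * (X + 1) * (EA + EB) with hz
  set w' := EA * EB / (2 * (L * L) * (q * q)) with hw'
  have hpos2 : 0 < 2 * (L * L) * (q * q) := by positivity
  -- `Y z ≤ w'`
  have hK : 2 * (Y * (C * (X + 1)) * (2 * (L * L) * (q * q))) ≤ C ^ (80 * r) := by
    have h6 := b.e6
    rw [← hX] at h6
    calc 2 * (Y * (C * (X + 1)) * (2 * (L * L) * (q * q)))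
        = C ^ (50 * r) * (2 * (2 ^ (q * q) * (C * (X + 1)) * (2 * (L * L) * (q * q)))) := by
          rw [hYe]; ring
      _ ≤ C ^ (50 * r) * C ^ m := Nat.mul_le_mul_left _ h6
      _ = C ^ (50 * r + m) := by rw [pow_add]
      _ ≤ C ^ (80 * r) := Nat.pow_le_pow_right hCpos (by omega)
  have hYz : Y * z ≤ w' := by
    rw [hw', Nat.le_div_iff_mul_le hpos2, hz]
    generalize hK0 : Y * (C * (X + 1)) * (2 * (L * L) * (q * q)) = K0 at *
    have e : Y * (C * (X + 1) * (EA + EB)) * (2 * (L * L) * (q * q)) = K0 * (EA + EB) := by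
      rw [← hK0]; ring
    rw [e]
    have hA : 2 * K0 ≤ EA := hK.trans hEA
    have hB : 2 * K0 ≤ EB := hK.trans hEB
    nlinarith [Nat.mul_le_mul_right EB hA, Nat.mul_le_mul_right EA hB]
  have hbern := bern' Y z w' hY1 hYz
  -- assemble
  have hCE : C ^ m ≤ C ^ (EA + EB) := by
    apply Nat.pow_le_pow_right hCpos
    have h1 : 80 * r < C ^ (80 * r) := Nat.lt_pow_self (by omega)
    omega
  calc 5 * (100 * r * (100 * r) * (L * L)) * (((q ^ L * (D * EB + 1) ^ q) ^ EA *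
        (q ^ L * (D * EA + 1) ^ q) ^ EB) * (Y - 1) ^ w')
      ≤ C ^ (EA + EB) * (((C ^ X) ^ EA * (C ^ X) ^ EB) * (Y - 1) ^ w') := by
        apply Nat.mul_le_mul (b.e5.trans hCE)
        apply Nat.mul_le_mul_right
        exact Nat.mul_le_mul (Nat.pow_le_pow_left hdataA _) (Nat.pow_le_pow_left hdataB _)
    _ = (Y - 1) ^ w' * C ^ ((X + 1) * (EA + EB)) := by
        rw [← pow_add, ← pow_mul, ← mul_assoc, ← pow_add]
        rw [show EA + EB + X * (EA + EB) = (X + 1) * (EA + EB) by ring]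
        ring
    _ ≤ (Y - 1) ^ w' * 2 ^ z := by
        apply Nat.mul_le_mul_left
        rw [hz, mul_assoc, pow_mul 2 C]
        exact Nat.pow_le_pow_left (Nat.lt_two_pow_self).le _
    _ ≤ Y ^ w' := hbern

/-- good outcomes exist -/
theorem Big.outcome (b : Big h D C q L r m) :
    ∃ (mk : ℕ → ℕ → ℕ → ℕ → Prop) (bt : ℕ → ℕ → ℕ → ℕ → ℕ → ℕ → Bool),
      Few mk q L D ∧ NoGrid mk q L h ∧
      ∀ t ∈ Ioc (220 * r) (220 * r + 100 * r), ∀ t' ∈ Ioc (220 * r) (220 * r + 100 * r),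
        ∀ i < L, ∀ j < L,
        Hits mk bt q L D (C ^ (400 * r - t)) (C ^ (400 * r - t')) i j := by
  have hm1 := b.m1
  have hmr := b.mr
  exact exists_outcome (q := q) (L := L) (w := C ^ (50 * r)) (D := D) (h := h)
    (t₀ := 220 * r) (S := 100 * r) (T := 400 * r) (C := C) b.q1 (by have := b.hL; omega)
    (by omega) (Nat.pow_pos (by have := b.C2; omega)) b.c0 b.c1 b.c3

/-- the graph theorem at the sampled sizes -/
theorem Big.graph (b : Big h D C q L r m) {n : ℕ} (hn : 2 * C ^ (400 * r) ≤ n) :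
    ∃ G : SimpleGraph (Fin n),
        (∀ v, (G.neighborSet v).ncard ≤ D) ∧
        (∃ u v, G.Adj u v) ∧
        (∃ k : ℕ, ∀ u v, G.Adj u v → (u.val < k ↔ k ≤ v.val)) ∧
        ∀ N : ℕ, N ≤ q ^ L →
          ∃ f : Fin N → Fin N → Bool, ∀ φ : Fin n → Fin N, StrictMono φ → ∀ b : Bool,
            ∃ u v, G.Adj u v ∧ u < v ∧ f (φ u) (φ v) ≠ b := by
  obtain ⟨mk, bt, h1, h2, h3⟩ := b.outcome
  exact b.par.final h1 h2 h3 hn

end

end Pool.Agent.Hhelper5.OrdR
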